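import Mathlib
import Pool.Agent.Y685.G5
import Pool.Agent.Y776.Cv.AxM

/-!
# Several fixed curves and exponentials: the system of functions and closed fields
-/

set_option autoImplicit false

open Filter Finset
open scoped Topology PeriodPair

noncomputable section

namespace Pool.Agent.H39D

open H667R3 Pool.Agent.W245.EB Pool.Agent.TH813.Ell MvPolynomial Pool.Agent.Y685
open Pool.Agent.TH813.Rel (DF MK)
open Pool.Agent.Y776 (Tf lg Good Grad grC countable_bad good_union exists_chain)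

/-- names of the functions -/
inductive Sm (q n s : ℕ) : Type
  | g (c : Fin q) : Sm q n s
  | z (i : Fin n) : Sm q n s
  | ze (i : Fin n) : Sm q n s
  | wp (i : Fin n) : Sm q n s
  | wp' (i : Fin n) : Sm q n s
  | t (l : Fin s) : Sm q n s
  | e (l : Fin s) : Sm q n s

/-- the names form a finite type -/
def Sm.toSum {q n s : ℕ} : Sm q n s → Fin q ⊕ ((Fin 4 × Fin n) ⊕ (Fin 2 × Fin s))
  | .g c => .inl c
  | .z i => .inr (.inl (0, i))
  | .ze i => .inr (.inl (1, i))
  | .wp i => .inr (.inl (2, i))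
  | .wp' i => .inr (.inl (3, i))
  | .t l => .inr (.inr (0, l))
  | .e l => .inr (.inr (1, l))

theorem Sm.toSum_inj {q n s : ℕ} : Function.Injective (Sm.toSum (q := q) (n := n) (s := s)) := by
  intro u w h
  cases u <;> cases w <;> simp [Sm.toSum] at h ⊢ <;> exact h

instance {q n s : ℕ} : Finite (Sm q n s) := Finite.of_injective _ Sm.toSum_inj

instance {q n s : ℕ} : Fintype (Sm q n s) := Fintype.ofFinite _

variable {q n s : ℕ} {Λ : Fin q → PeriodPair} {ty : Fin n → Fin q}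

/-- the functions -/
def Ph (Λ : Fin q → PeriodPair) (ty : Fin n → Fin q) (x : Fin (n + s) → ℂ) : Sm q n s → ℂ
  | .g c => (Λ c).g₂
  | .z i => x (Fin.castAdd s i)
  | .ze i => zeta (Λ (ty i)) (x (Fin.castAdd s i))
  | .wp i => ℘[Λ (ty i)] (x (Fin.castAdd s i))
  | .wp' i => ℘'[Λ (ty i)] (x (Fin.castAdd s i))
  | .t l => x (Fin.natAdd n l)
  | .e l => Complex.exp (x (Fin.natAdd n l))

/-- the derivatives in the direction of a point -/
def PA (ty : Fin n → Fin q) (j : Fin n) : Sm q n s → MvPolynomial (Sm q n s) ℚ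
  | .g _ => 0
  | .z i => if j = i then 1 else 0
  | .ze i => if j = i then -X (.wp i) else 0
  | .wp i => if j = i then X (.wp' i) else 0
  | .wp' i => if j = i then 6 * X (.wp i) ^ 2 - X (.g (ty i)) * C (1 / 2) else 0
  | .t _ => 0
  | .e _ => 0

/-- the derivatives in the direction of an exponent -/
def PB (q n : ℕ) (j : Fin s) : Sm q n s → MvPolynomial (Sm q n s) ℚ
  | .g _ => 0
  | .z _ => 0
  | .ze _ => 0
  | .wp _ => 0
  | .wp' _ => 0
  | .t l => if j = l then 1 else 0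
  | .e l => if j = l then X (.e l) else 0

/-- the derivatives -/
def PM (ty : Fin n → Fin q) : Fin (n + s) → Sm q n s → MvPolynomial (Sm q n s) ℚ :=
  fun j => Fin.addCases (fun j => PA ty j) (fun j => PB q n j) j

@[simp] theorem PM_left (j : Fin n) : PM (s := s) ty (Fin.castAdd s j) = PA ty j := by
  simp [PM]

@[simp] theorem PM_right (j : Fin s) : PM ty (Fin.natAdd n j) = PB q n j := by
  simp [PM]

/-- the domain -/
def UM (Λ : Fin q → PeriodPair) (ty : Fin n → Fin q) (s : ℕ) : Set (Fin (n + s) → ℂ) :=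
  {x | ∀ i : Fin n, x (Fin.castAdd s i) ∉ (Λ (ty i)).lattice}

theorem isOpen_UM : IsOpen (UM Λ ty s) := by
  have h1 : UM Λ ty s = ⋂ i : Fin n, (fun x : Fin (n + s) → ℂ => x (Fin.castAdd s i)) ⁻¹'
      (((Λ (ty i)).lattice : Set ℂ)ᶜ) := by
    ext x
    simp [UM]
  rw [h1]
  exact isOpen_iInter_of_finite (fun i => (isOpen_compl (Λ (ty i))).preimage (continuous_apply _))

theorem Ph_der {x : Fin (n + s) → ℂ} (hx : x ∈ UM Λ ty s) (s₀ : Sm q n s) :
    HasFDerivAt (fun y => Ph Λ ty y s₀) (∑ j, (aeval (Ph Λ ty x) (PM (s := s) ty j s₀)) •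
      (ContinuousLinearMap.proj j : (Fin (n + s) → ℂ) →L[ℂ] ℂ)) x := by
  classical
  have key : ∀ (j : Fin (n + s)) (c : ℂ), aeval (Ph Λ ty x) (PM (s := s) ty j s₀) = c →
      (∀ j', j' ≠ j → aeval (Ph Λ ty x) (PM (s := s) ty j' s₀) = 0) →
      (∑ j, (aeval (Ph Λ ty x) (PM (s := s) ty j s₀)) •
      (ContinuousLinearMap.proj j : (Fin (n + s) → ℂ) →L[ℂ] ℂ)) =
        c • (ContinuousLinearMap.proj j : (Fin (n + s) → ℂ) →L[ℂ] ℂ) := by
    intro j c h1 h2
    rw [Finset.sum_eq_single j, h1]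
    · intro j' _ hj'
      rw [h2 j' hj']
      exact ContinuousLinearMap.ext (fun v => by simp)
    · intro h; exact absurd (mem_univ j) h
  have hd : ∀ (i : Fin n) (j' : Fin (n + s)), j' ≠ Fin.castAdd s i →
      (∃ i', i' ≠ i ∧ j' = Fin.castAdd s i') ∨ ∃ l, j' = Fin.natAdd n l := by
    intro i j'
    induction j' using Fin.addCases with
    | left i' => exact fun h => Or.inl ⟨i', fun h' => h (by rw [h']), rfl⟩
    | right l => exact fun _ => Or.inr ⟨l, rfl⟩
  have he : ∀ (l : Fin s) (j' : Fin (n + s)), j' ≠ Fin.natAdd n l →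
      (∃ i', j' = Fin.castAdd s i') ∨ ∃ l', l' ≠ l ∧ j' = Fin.natAdd n l' := by
    intro l j'
    induction j' using Fin.addCases with
    | left i' => exact fun _ => Or.inl ⟨i', rfl⟩
    | right l' => exact fun h => Or.inr ⟨l', fun h' => h (by rw [h']), rfl⟩
  cases s₀ with
  | g c =>
    have h0 : (∑ j, (aeval (Ph Λ ty x) (PM (s := s) ty j (.g c))) •
      (ContinuousLinearMap.proj j : (Fin (n + s) → ℂ) →L[ℂ] ℂ)) = 0 := by
      refine sum_eq_zero (fun j _ => ?_)
      induction j using Fin.addCases with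
      | left i => exact ContinuousLinearMap.ext (fun v => by simp [PA])
      | right l => exact ContinuousLinearMap.ext (fun v => by simp [PB])
    rw [h0]
    exact hasFDerivAt_const _ _
  | z i =>
    rw [key (Fin.castAdd s i) 1 (by simp [PA]) (by
      intro j' hj'
      rcases hd i j' hj' with ⟨i', hi', rfl⟩ | ⟨l, rfl⟩
      · simp [PA, hi']
      · simp [PB])]
    exact hasFDerivAt_coord (f := fun u => u) (Fin.castAdd s i) (hasDerivAt_id _)
  | ze i =>
    rw [key (Fin.castAdd s i) (-℘[Λ (ty i)] (x (Fin.castAdd s i))) (by simp [PA, Ph]) (by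
      intro j' hj'
      rcases hd i j' hj' with ⟨i', hi', rfl⟩ | ⟨l, rfl⟩
      · simp [PA, hi']
      · simp [PB])]
    exact hasFDerivAt_coord (Fin.castAdd s i) (hasDerivAt_zeta (Λ (ty i)) (hx i))
  | wp i =>
    rw [key (Fin.castAdd s i) (℘'[Λ (ty i)] (x (Fin.castAdd s i))) (by simp [PA, Ph]) (by
      intro j' hj'
      rcases hd i j' hj' with ⟨i', hi', rfl⟩ | ⟨l, rfl⟩
      · simp [PA, hi']
      · simp [PB])]
    exact hasFDerivAt_coord (Fin.castAdd s i) (hasDerivAt_weierstrassP (Λ (ty i)) (hx i))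
  | wp' i =>
    rw [key (Fin.castAdd s i) (6 * ℘[Λ (ty i)] (x (Fin.castAdd s i)) ^ 2 - (Λ (ty i)).g₂ / 2) (by
      simp [PA, Ph, map_ofNat]
      ring) (by
      intro j' hj'
      rcases hd i j' hj' with ⟨i', hi', rfl⟩ | ⟨l, rfl⟩
      · simp [PA, hi']
      · simp [PB])]
    exact hasFDerivAt_coord (Fin.castAdd s i) (H2.hasDerivAt_wp'_all (Λ (ty i)) (hx i))
  | t l =>
    rw [key (Fin.natAdd n l) 1 (by simp [PB]) (by
      intro j' hj'
      rcases he l j' hj' with ⟨i', rfl⟩ | ⟨l', hl', rfl⟩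
      · simp [PA]
      · simp [PB, hl'])]
    exact hasFDerivAt_coord (f := fun u => u) (Fin.natAdd n l) (hasDerivAt_id _)
  | e l =>
    rw [key (Fin.natAdd n l) (Complex.exp (x (Fin.natAdd n l))) (by simp [PB, Ph]) (by
      intro j' hj'
      rcases he l j' hj' with ⟨i', rfl⟩ | ⟨l', hl', rfl⟩
      · simp [PA]
      · simp [PB, hl'])]
    exact hasFDerivAt_coord (Fin.natAdd n l) (Complex.hasDerivAt_exp _)

/-- the derivations which are compatible with the points and exponents -/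
def CM (K : Subfield ℂ) (Λ : Fin q → PeriodPair) (ty : Fin n → Fin q) (z : Fin n → ℂ)
    (t : Fin s → ℂ) : Submodule ℂ (Derivation ℚ ℂ ℂ) where
  carrier := {D | (∀ x ∈ K, D x = 0) ∧ (∀ i, Cm1 (Λ (ty i)) D (z i)) ∧ ∀ l, Tf D (t l) = 0}
  add_mem' := by
    rintro D D' ⟨h1, h2, h3⟩ ⟨h1', h2', h3'⟩
    refine ⟨fun x hx => ?_, fun i => ⟨?_, ?_⟩, fun l => ?_⟩
    · rw [Derivation.add_apply, h1 x hx, h1' x hx, add_zero]
    · rw [om_add_der, (h2 i).1, (h2' i).1, Derivation.add_apply]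
    · have e1 := (h2 i).2
      have e2 := (h2' i).2
      unfold et at e1 e2 ⊢
      rw [om_add_der, Derivation.add_apply]
      linear_combination e1 + e2
    · rw [Pool.Agent.Y776.Tf_add_der, h3, h3', add_zero]
  zero_mem' := by
    refine ⟨fun x _ => rfl, fun i => ⟨?_, ?_⟩, fun l => ?_⟩
    · simp [om]
    · simp [et, om]
    · simp [Tf, lg]
  smul_mem' := by
    rintro c D ⟨h1, h2, h3⟩
    refine ⟨fun x hx => ?_, fun i => ⟨?_, ?_⟩, fun l => ?_⟩
    · rw [Derivation.smul_apply, h1 x hx, smul_zero]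
    · rw [om_smul_der, (h2 i).1, Derivation.smul_apply, smul_eq_mul]
    · have e1 := (h2 i).2
      unfold et at e1 ⊢
      rw [om_smul_der, Derivation.smul_apply, smul_eq_mul]
      linear_combination c * e1
    · rw [Pool.Agent.Y776.Tf_smul_der, h3, mul_zero]

/-- a vector which is orthogonal to the gradients of the relations gives a derivation -/
theorem vec_CM {K : Subfield ℂ} {z : Fin n → ℂ} {t : Fin s → ℂ}
    (hz : ∀ i, 2 * z i ∉ (Λ (ty i)).lattice) {v : Fin (n + s) → ℂ}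
    (h : ∀ g ∈ Grad (PM ty) K (Ph Λ ty (Fin.append z t)), ∑ j, v j * g j = 0) :
    ∃ D ∈ CM K Λ ty z t, (∀ i, D (z i) = v (Fin.castAdd s i)) ∧
      ∀ l, D (t l) = v (Fin.natAdd n l) := by
  classical
  obtain ⟨D', hD'⟩ := Pool.Agent.Y119.CB.exists_derivation (k := K) (Ph Λ ty (Fin.append z t))
    (fun s₁ => ∑ j, v j * aeval (Ph Λ ty (Fin.append z t)) (PM ty j s₁)) (by
      intro H hH
      have h1 := h _ ⟨H, hH, rfl⟩
      rw [← h1]
      simp only [grC, Finset.mul_sum]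
      rw [Finset.sum_comm]
      exact Finset.sum_congr rfl fun j _ => Finset.sum_congr rfl fun s _ => by ring)
  set D : Derivation ℚ ℂ ℂ := D'.restrictScalars ℚ with hDdef
  have hk : ∀ c ∈ K, D c = 0 := fun c hc => D'.map_algebraMap ⟨c, hc⟩
  have hD : ∀ s₁, D (Ph Λ ty (Fin.append z t) s₁) =
      ∑ j, v j * aeval (Ph Λ ty (Fin.append z t)) (PM ty j s₁) := hD'
  have k1 : ∀ i, D (z i) = v (Fin.castAdd s i) := by
    intro i
    have := hD (.z i)
    rw [Fin.sum_univ_add] at this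
    simpa [Ph, PA, PB, apply_ite] using this
  have k2 : ∀ i, D (zeta (Λ (ty i)) (z i)) = -v (Fin.castAdd s i) * ℘[Λ (ty i)] (z i) := by
    intro i
    have := hD (.ze i)
    rw [Fin.sum_univ_add] at this
    simpa [Ph, PA, PB, apply_ite] using this
  have k3 : ∀ i, D (℘[Λ (ty i)] (z i)) = v (Fin.castAdd s i) * ℘'[Λ (ty i)] (z i) := by
    intro i
    have := hD (.wp i)
    rw [Fin.sum_univ_add] at this
    simpa [Ph, PA, PB, apply_ite] using this
  have k4 : ∀ l, D (t l) = v (Fin.natAdd n l) := by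
    intro l
    have := hD (.t l)
    rw [Fin.sum_univ_add] at this
    simpa [Ph, PA, PB, apply_ite] using this
  have k5 : ∀ l, D (Complex.exp (t l)) = v (Fin.natAdd n l) * Complex.exp (t l) := by
    intro l
    have := hD (.e l)
    rw [Fin.sum_univ_add] at this
    simpa [Ph, PA, PB, apply_ite] using this
  refine ⟨D, ⟨hk, fun i => ?_, fun l => ?_⟩, k1, k4⟩
  · have h1 : om (Λ (ty i)) D (z i) = v (Fin.castAdd s i) := by
      unfold om
      rw [k3, mul_div_assoc, div_self (wp'_ne_zero _ (hz i)), mul_one]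
    refine ⟨by rw [h1, k1], ?_⟩
    unfold et
    rw [h1, zt_of_notMem (two_mul_notMem_of _ (hz i)), k2]
    ring
  · unfold Tf lg
    rw [k4, k5, mul_div_assoc, div_self (Complex.exp_ne_zero _)]
    ring

/-- the points and exponents in one vector -/
theorem good_CM {K : Subfield ℂ} {z : Fin n → ℂ} {t : Fin s → ℂ}
    (hz : ∀ i, 2 * z i ∉ (Λ (ty i)).lattice) {j₀ : Fin (n + s)}
    (h : Good (PM ty) K (Ph Λ ty (Fin.append z t)) j₀) :
    ∃ D ∈ CM K Λ ty z t, D (Fin.append z t j₀) = 1 := by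
  classical
  obtain ⟨f, hf1, hf2⟩ := Submodule.exists_le_ker_of_notMem h
  let v : Fin (n + s) → ℂ := fun j => f (Pi.single j 1) / f (Pi.single j₀ 1)
  have hv : ∀ g : Fin (n + s) → ℂ, ∑ j, v j * g j = f g / f (Pi.single j₀ 1) := by
    intro g
    have h1 : g = ∑ j, g j • (Pi.single j (1 : ℂ) : Fin (n + s) → ℂ) := by
      funext i'
      simp [Finset.sum_apply, Pi.single_apply]
    conv_rhs => rw [h1, map_sum, Finset.sum_div]
    refine Finset.sum_congr rfl fun j _ => ?_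
    rw [map_smul, smul_eq_mul]
    simp only [v]
    ring
  have hv1 : v j₀ = 1 := div_self hf1
  obtain ⟨D, hD, h1, h2⟩ := vec_CM hz (v := v) (fun g hg => by
    rw [hv, show f g = 0 from hf2 (Submodule.subset_span hg), zero_div])
  refine ⟨D, hD, ?_⟩
  induction j₀ using Fin.addCases with
  | left i => rw [Fin.append_left, h1, hv1]
  | right l => rw [Fin.append_right, h2, hv1]

/-- countable closed fields -/
structure Cl (Λ : Fin q → PeriodPair) (K : Subfield ℂ) : Prop where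
  cnt : (K : Set ℂ).Countable
  alg : ∀ x, IsAlgebraic K x → x ∈ K
  exp : ∀ x ∈ K, Complex.exp x ∈ K
  lat : ∀ c, (Λ c).ω₁ ∈ K ∧ (Λ c).ω₂ ∈ K
  g₂ : ∀ c, (Λ c).g₂ ∈ K
  g₃ : ∀ c, (Λ c).g₃ ∈ K
  wp : ∀ c, ∀ u ∈ K, ℘[Λ c] u ∈ K
  zt : ∀ c, ∀ u ∈ K, zt (Λ c) u ∈ K
  good : ∀ (n s : ℕ) (ty : Fin n → Fin q) (z : Fin n → ℂ) (t : Fin s → ℂ) (j₀ : Fin (n + s)),
    (∀ i, z i ∉ (Λ (ty i)).lattice) → Fin.append z t j₀ ∉ K →
      Good (PM ty) K (Ph Λ ty (Fin.append z t)) j₀

/-- the exceptional points and exponents -/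
def bad (Λ : Fin q → PeriodPair) (K : Subfield ℂ) : Set ℂ := {x | ∃ (n s : ℕ) (ty : Fin n → Fin q)
  (z : Fin n → ℂ) (t : Fin s → ℂ) (j₀ : Fin (n + s)), (∀ i, z i ∉ (Λ (ty i)).lattice) ∧
    Fin.append z t j₀ = x ∧ ¬ Good (PM ty) K (Ph Λ ty (Fin.append z t)) j₀}

theorem countable_badM {K : Subfield ℂ} (hK : (K : Set ℂ).Countable) : (bad Λ K).Countable := by
  have h1 : ∀ (n s : ℕ) (ty : Fin n → Fin q) (j₀ : Fin (n + s)), {c : ℂ | ∃ a ∈ UM Λ ty s, a j₀ = c ∧
      ¬ Good (PM ty) K (Ph Λ ty a) j₀}.Countable := by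
    intro n s ty j₀
    induction j₀ using Fin.addCases with
    | left i =>
      exact countable_bad (PM ty) hK isOpen_UM (fun x hx s₀ => Ph_der hx s₀)
        (s₀ := (.z i : Sm q n s)) (fun x => rfl)
    | right l =>
      exact countable_bad (PM ty) hK isOpen_UM (fun x hx s₀ => Ph_der hx s₀)
        (s₀ := (.t l : Sm q n s)) (fun x => rfl)
  refine (Set.countable_iUnion (fun n => Set.countable_iUnion (fun s => Set.countable_iUnion
    (fun ty => Set.countable_iUnion (fun j₀ => h1 n s ty j₀))))).mono ?_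
  rintro x ⟨n, s, ty, z, t, j₀, hz, rfl, hg⟩
  refine Set.mem_iUnion.2 ⟨n, Set.mem_iUnion.2 ⟨s, Set.mem_iUnion.2 ⟨ty,
    Set.mem_iUnion.2 ⟨j₀, Fin.append z t, ?_, rfl, hg⟩⟩⟩⟩
  intro i
  rw [Fin.append_left]
  exact hz i

/-- **Countable closed fields** -/
theorem exists_Cl (Λ : Fin q → PeriodPair) {S : Set ℂ} (hS : S.Countable) :
    ∃ K : Subfield ℂ, Cl Λ K ∧ S ⊆ K := by
  obtain ⟨K, F, hmono, hF, hFc, hSF, hTF, halg⟩ := exists_chain
    (fun k => bad Λ k ∪ ((Complex.exp '' (k : Set ℂ)) ∪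
      ((⋃ c, ℘[Λ c] '' (k : Set ℂ)) ∪ (⋃ c, zt (Λ c) '' (k : Set ℂ)))))
    (fun k hk => (countable_badM hk).union ((hk.image _).union
      ((Set.countable_iUnion (fun c => hk.image _)).union
        (Set.countable_iUnion (fun c => hk.image _)))))
    (S₀ := (Set.range (fun c => (Λ c).ω₁) ∪ Set.range (fun c => (Λ c).ω₂)) ∪
      ((Set.range (fun c => (Λ c).g₂) ∪ Set.range (fun c => (Λ c).g₃)) ∪ S))
    (((Set.countable_range _).union (Set.countable_range _)).union
      (((Set.countable_range _).union (Set.countable_range _)).union hS))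
  refine ⟨F, ⟨hFc, halg, ?_, fun c => ⟨hSF (Or.inl (Or.inl ⟨c, rfl⟩)), hSF (Or.inl (Or.inr ⟨c, rfl⟩))⟩,
    fun c => hSF (Or.inr (Or.inl (Or.inl ⟨c, rfl⟩))), fun c => hSF (Or.inr (Or.inl (Or.inr ⟨c, rfl⟩))),
    ?_, ?_, ?_⟩, fun x hx => hSF (Or.inr (Or.inr hx))⟩
  · intro x hx
    obtain ⟨i, hi⟩ := (hF x).1 hx
    exact hTF i (Or.inr (Or.inl ⟨x, hi, rfl⟩))
  · intro c x hx
    obtain ⟨i, hi⟩ := (hF x).1 hx
    exact hTF i (Or.inr (Or.inr (Or.inl (Set.mem_iUnion.2 ⟨c, x, hi, rfl⟩))))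
  · intro c x hx
    obtain ⟨i, hi⟩ := (hF x).1 hx
    exact hTF i (Or.inr (Or.inr (Or.inr (Set.mem_iUnion.2 ⟨c, x, hi, rfl⟩))))
  · intro n s ty z t j₀ hz hj
    refine good_union hmono (fun x hx => (hF x).1 hx) (fun i => ?_)
    by_contra hcon
    apply hj
    exact hTF i (Or.inl ⟨n, s, ty, z, t, j₀, hz, rfl, hcon⟩)

end Pool.Agent.H39D
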