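import Mathlib
import Pool.Agent.H39D.C

/-!
# The rank of independent points and exponents over a closed field
-/

set_option autoImplicit false

open Filter Finset Module
open scoped Topology PeriodPair ComplexConjugate

noncomputable section

namespace Pool.Agent.H39D

open H667R3 Pool.Agent.W245.EB Pool.Agent.TH813.Ell MvPolynomial Pool.Agent.Y685
open Pool.Agent.TH813.G (NoHom rosM)
open Pool.Agent.TH813.Rel (DF MK)
open Pool.Agent.Y776 (Tf lg ET Good Grad grC)
open Pool.Agent.Y776.Cv (EPM EPM_finite FvM FvM_add FvM_smul)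

variable {q n s : ℕ} {Λ : Fin q → PeriodPair} {ty : Fin n → Fin q} {κ : Fin q → ℂ}
  {D : Derivation ℚ ℂ ℂ} {K : Subfield ℂ}

theorem Cl.lat_mem (hK : Cl Λ K) {c : Fin q} {w : ℂ} (hw : w ∈ (Λ c).lattice) : w ∈ K := by
  obtain ⟨a, b, rfl⟩ := PeriodPair.mem_lattice.1 hw
  exact add_mem (mul_mem (intCast_mem K a) (hK.lat c).1) (mul_mem (intCast_mem K b) (hK.lat c).2)

theorem Cl.kL_mem (hK : Cl Λ K) {c : Fin q} {x : ℂ} (hx : x ∈ kL (Λ c)) : x ∈ K := by
  obtain ⟨m, hm, h⟩ := mem_kL.1 hx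
  have h1 := hK.lat_mem (h _ (Λ c).ω₁_mem_lattice)
  have hm0 : (m : ℂ) ≠ 0 := by exact_mod_cast hm.ne'
  have hω := ω₁_ne_zero (Λ c)
  have h2 : x = (m * x) * (Λ c).ω₁ / (m * (Λ c).ω₁) := by
    field_simp
  rw [h2]
  exact div_mem h1 (mul_mem (natCast_mem K m) (hK.lat c).1)

theorem Cl.half (hK : Cl Λ K) {c : Fin q} {x : ℂ} (hx : x ∉ K) : 2 * x ∉ (Λ c).lattice := by
  intro h
  apply hx
  have h4 : x = (2 * x) / 2 := by ring
  rw [h4]
  exact div_mem (hK.lat_mem h) (ofNat_mem K 2)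

/-- the points and exponents are independent modulo the closed field -/
structure Ind (Λ : Fin q → PeriodPair) (K : Subfield ℂ) (ty : Fin n → Fin q) (z : Fin n → ℂ)
    (t : Fin s → ℂ) : Prop where
  hz : ∀ (c₀ : Fin q) (c : Fin n → ℂ), (∀ i, c i ∈ kL (Λ c₀)) → (∀ i, ty i ≠ c₀ → c i = 0) →
    ∑ i, c i * z i ∈ K → c = 0
  ht : ∀ q : Fin s → ℚ, ∑ l, q l • t l ∈ K → q = 0

theorem Ind.zK {z : Fin n → ℂ} {t : Fin s → ℂ} (h : Ind Λ K ty z t) (i : Fin n) : z i ∉ K := by
  classical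
  intro hi
  have h4 := h.hz (ty i) (Pi.single i 1) (fun j => by
    by_cases hj : j = i
    · rw [hj, Pi.single_eq_same]; exact one_mem _
    · rw [Pi.single_eq_of_ne hj]; exact zero_mem _) (fun j hj => by
    rw [Pi.single_eq_of_ne]
    rintro rfl
    exact hj rfl) (by
    rw [sum_eq_single i]
    · rw [Pi.single_eq_same, one_mul]; exact hi
    · intro j _ hj
      rw [Pi.single_eq_of_ne hj, zero_mul]
    · intro h; exact absurd (mem_univ i) h)
  have h5 := congrFun h4 i
  rw [Pi.single_eq_same] at h5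
  exact one_ne_zero h5

/-- a compatible derivation which kills no combination of the points and of the exponents -/
theorem exists_gen (hK : Cl Λ K) (hE : ∀ c, Eig (Λ c) (κ c)) {z : Fin n → ℂ} {t : Fin s → ℂ}
    (h : Ind Λ K ty z t) :
    ∃ D ∈ CM K Λ ty z t,
      (∀ (c₀ : Fin q) (c : Fin n → ℂ), (∀ i, c i ∈ kL (Λ c₀)) → (∀ i, ty i ≠ c₀ → c i = 0) →
        D (∑ i, c i * z i) = 0 → c = 0) ∧
      ∀ q : Fin s → ℚ, D (∑ l, q l • t l) = 0 → q = 0 := by
  classical
  let ev : CM K Λ ty z t →ₗ[ℂ] (Fin n ⊕ Fin s → ℂ) :=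
    { toFun := fun D => Sum.elim (fun i => (D : Derivation ℚ ℂ ℂ) (z i))
        (fun l => (D : Derivation ℚ ℂ ℂ) (t l))
      map_add' := fun D D' => by
        funext o
        rcases o with i | l <;> rfl
      map_smul' := fun c D => by
        funext o
        rcases o with i | l <;> rfl }
  let C1 : Fin q → Set (Fin n → ℂ) := fun c₀ =>
    {c | (∀ i, c i ∈ kL (Λ c₀)) ∧ (∀ i, ty i ≠ c₀ → c i = 0) ∧ c ≠ 0}
  let S : Set (Fin n ⊕ Fin s → ℂ) := (⋃ c₀, (fun c : Fin n → ℂ => Sum.elim c 0) '' C1 c₀) ∪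
    (fun q : Fin s → ℚ => Sum.elim 0 (fun l => (q l : ℂ))) '' {q | q ≠ 0}
  have hC1 : ∀ c₀, (C1 c₀).Countable := by
    intro c₀
    have hk : (kL (Λ c₀) : Set ℂ).Countable := hK.cnt.mono (fun x hx => hK.kL_mem hx)
    refine (Set.countable_univ_pi (fun _ : Fin n => hk)).mono ?_
    intro c hc i _
    exact hc.1 i
  have hS : S.Countable := (Set.countable_iUnion (fun c₀ => (hC1 c₀).image _)).union
    ((Set.to_countable _).image _)
  have hev1 : ∀ (c₀ : Fin q) (c : Fin n → ℂ) (D : CM K Λ ty z t), (∀ i, c i ∈ kL (Λ c₀)) →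
      ∑ o, (Sum.elim c 0 : Fin n ⊕ Fin s → ℂ) o * ev D o =
      (D : Derivation ℚ ℂ ℂ) (∑ i, c i * z i) := by
    intro c₀ c D hc
    rw [Fintype.sum_sum_type, map_sum]
    simp only [Sum.elim_inl, Sum.elim_inr, Pi.zero_apply, zero_mul, sum_const_zero, add_zero]
    refine sum_congr rfl (fun i _ => ?_)
    rw [D_mul, der_kL _ (hc i)]
    change c i * (D : Derivation ℚ ℂ ℂ) (z i) = _
    ring
  have hev2 : ∀ (q : Fin s → ℚ) (D : CM K Λ ty z t),
      ∑ o, (Sum.elim 0 (fun l => (q l : ℂ)) : Fin n ⊕ Fin s → ℂ) o * ev D o =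
      (D : Derivation ℚ ℂ ℂ) (∑ l, q l • t l) := by
    intro q D
    rw [Fintype.sum_sum_type, map_sum]
    simp only [Sum.elim_inl, Sum.elim_inr, Pi.zero_apply, zero_mul, sum_const_zero, zero_add]
    refine sum_congr rfl (fun l _ => ?_)
    rw [Derivation.map_smul, Rat.smul_def]
    rfl
  have hzK := h.zK
  obtain ⟨D₀, hD₀⟩ := Pool.Agent.Y776.exists_generic ev hS (by
    rintro _ (hc | ⟨q, hq, rfl⟩)
    · obtain ⟨c₀, c, ⟨hc, hct, hc0⟩, rfl⟩ := Set.mem_iUnion.1 hc
      obtain ⟨i₀, hi₀⟩ := Function.ne_iff.1 hc0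
      have hi₀' : c i₀ ≠ 0 := hi₀
      obtain rfl : ty i₀ = c₀ := by
        by_contra hne
        exact hi₀' (hct i₀ hne)
      set x : ℂ := ∑ i, c i * z i with hx
      have hxK : x ∉ K := fun h' => hc0 (h.hz _ c hc hct h')
      let z' : Fin n → ℂ := Function.update z i₀ x
      have hz'0 : z' i₀ = x := Function.update_self _ _ _
      have hz'1 : ∀ i, i ≠ i₀ → z' i = z i := fun i hi => Function.update_of_ne hi _ _
      have hz'K : ∀ i, z' i ∉ K := by
        intro i
        by_cases hi : i = i₀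
        · rw [hi, hz'0]; exact hxK
        · rw [hz'1 i hi]; exact hzK i
      obtain ⟨D, hD, hD1⟩ := good_CM (ty := ty) (fun i => hK.half (hz'K i))
        (hK.good n s ty z' t (Fin.castAdd s i₀) (fun i hi => hz'K i (hK.lat_mem hi)) (by
          rw [Fin.append_left, hz'0]; exact hxK))
      rw [Fin.append_left, hz'0] at hD1
      have hD2 : D (Λ (ty i₀)).g₂ = 0 := hD.1 _ (hK.g₂ _)
      have hD3 : D (Λ (ty i₀)).g₃ = 0 := hD.1 _ (hK.g₃ _)
      have hcm : ∀ i, i ≠ i₀ → ty i = ty i₀ → z i ∈ CmS (hE (ty i₀)) hD2 hD3 := by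
        intro i hi hti
        have := hD.2.1 i
        rw [hz'1 i hi, hti] at this
        exact this
      have hcx : x ∈ CmS (hE (ty i₀)) hD2 hD3 := by
        have := hD.2.1 i₀
        rw [hz'0] at this
        exact this
      have hc₀ : z i₀ ∈ CmS (hE (ty i₀)) hD2 hD3 := by
        have h4 : (⟨c i₀, hc i₀⟩ : kL (Λ (ty i₀))) • z i₀ ∈ CmS (hE (ty i₀)) hD2 hD3 := by
          have h5 : (⟨c i₀, hc i₀⟩ : kL (Λ (ty i₀))) • z i₀ =
              x - ∑ i ∈ univ.erase i₀, (⟨c i, hc i⟩ : kL (Λ (ty i₀))) • z i := by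
            rw [hx, ← add_sum_erase univ _ (mem_univ i₀)]
            change c i₀ * z i₀ = c i₀ * z i₀ + _ - ∑ i ∈ univ.erase i₀, c i * z i
            ring
          rw [h5]
          refine sub_mem hcx (sum_mem (fun i hi => ?_))
          by_cases hti : ty i = ty i₀
          · exact Submodule.smul_mem _ _ (hcm i (ne_of_mem_erase hi) hti)
          · have h6 : (⟨c i, hc i⟩ : kL (Λ (ty i₀))) = 0 := Subtype.ext (hct i hti)
            rw [h6, zero_smul]
            exact zero_mem _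
        have h6 : (⟨c i₀, hc i₀⟩ : kL (Λ (ty i₀))) ≠ 0 := by
          intro h
          exact hi₀' (congrArg Subtype.val h)
        have h7 := Submodule.smul_mem _ (⟨c i₀, hc i₀⟩ : kL (Λ (ty i₀)))⁻¹ h4
        rwa [smul_smul, inv_mul_cancel₀ h6, one_smul] at h7
      refine ⟨⟨D, hD.1, fun i => ?_, hD.2.2⟩, ?_⟩
      · by_cases hi : i = i₀
        · rw [hi]; exact hc₀
        · have := hD.2.1 i
          rw [hz'1 i hi] at this
          exact this
      · change ∑ o, (Sum.elim c 0 : Fin n ⊕ Fin s → ℂ) o * _ ≠ 0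
        rw [hev1 _ c _ hc]
        change D x ≠ 0
        rw [hD1]
        exact one_ne_zero
    · have hq' : q ≠ 0 := hq
      obtain ⟨l₀, hl₀⟩ := Function.ne_iff.1 hq'
      have hl₀' : q l₀ ≠ 0 := hl₀
      set x : ℂ := ∑ l, q l • t l with hx
      have hxK : x ∉ K := fun h' => hq' (h.ht q h')
      let t' : Fin s → ℂ := Function.update t l₀ x
      have ht'0 : t' l₀ = x := Function.update_self _ _ _
      obtain ⟨D, hD, hD1⟩ := good_CM (ty := ty) (fun i => hK.half (hzK i))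
        (hK.good n s ty z t' (Fin.natAdd n l₀) (fun i hi => hzK i (hK.lat_mem hi)) (by
          rw [Fin.append_right, ht'0]; exact hxK))
      rw [Fin.append_right, ht'0] at hD1
      have hTx : Tf D x = 0 := by
        have := hD.2.2 l₀
        rwa [ht'0] at this
      have hTt : ∀ l, l ≠ l₀ → Tf D (t l) = 0 := by
        intro l hl
        have h1 := hD.2.2 l
        have h2 : t' l = t l := Function.update_of_ne hl _ _
        rwa [h2] at h1
      have hT0 : Tf D (t l₀) = 0 := by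
        rw [hx, Pool.Agent.Y776.Tf_lin, Finset.sum_eq_single l₀
          (fun l _ hl => by rw [hTt l hl, mul_zero])
          (fun h => absurd (Finset.mem_univ _) h)] at hTx
        refine (mul_eq_zero.1 hTx).resolve_left ?_
        exact_mod_cast hl₀'
      refine ⟨⟨D, hD.1, hD.2.1, fun l => ?_⟩, ?_⟩
      · by_cases hl : l = l₀
        · rw [hl]; exact hT0
        · exact hTt l hl
      · change ∑ o, (Sum.elim 0 (fun l => (q l : ℂ)) : Fin n ⊕ Fin s → ℂ) o * _ ≠ 0
        rw [hev2]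
        change D x ≠ 0
        rw [hD1]
        exact one_ne_zero)
  refine ⟨D₀, D₀.2, fun c₀ c hc hct h0 => ?_, fun q h0 => ?_⟩
  · by_contra hne
    have h4 := hD₀ _ (Or.inl (Set.mem_iUnion.2 ⟨c₀, c, ⟨hc, hct, hne⟩, rfl⟩))
    apply h4
    change ∑ o, (Sum.elim c 0 : Fin n ⊕ Fin s → ℂ) o * _ = 0
    rw [hev1 _ c _ hc, h0]
  · by_contra hne
    have h4 := hD₀ _ (Or.inr ⟨q, hne, rfl⟩)
    apply h4
    change ∑ o, (Sum.elim 0 (fun l => (q l : ℂ)) : Fin n ⊕ Fin s → ℂ) o * _ = 0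
    rw [hev2, h0]

/-- the space of the vectors which are orthogonal to the gradients -/
theorem exists_perp (W : Submodule ℂ (Fin n → ℂ)) : ∃ V : Submodule ℂ (Fin n → ℂ),
    (∀ v ∈ V, ∀ g ∈ W, ∑ j, v j * g j = 0) ∧ n ≤ finrank ℂ V + finrank ℂ W := by
  let b := Module.finBasis ℂ W
  let φ : (Fin n → ℂ) →ₗ[ℂ] (Fin (finrank ℂ W) → ℂ) :=
    { toFun := fun v i => ∑ j, v j * (b i : Fin n → ℂ) j
      map_add' := fun v w => by
        funext i
        rw [Pi.add_apply, ← sum_add_distrib]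
        exact sum_congr rfl (fun j _ => by rw [Pi.add_apply]; ring)
      map_smul' := fun c v => by
        funext i
        rw [Pi.smul_apply, smul_eq_mul, mul_sum]
        exact sum_congr rfl (fun j _ => by
          rw [Pi.smul_apply, smul_eq_mul, RingHom.id_apply]; ring) }
  refine ⟨LinearMap.ker φ, fun v hv g hg => ?_, ?_⟩
  · have h1 : (⟨g, hg⟩ : W) = ∑ i, b.repr ⟨g, hg⟩ i • b i := (b.sum_repr _).symm
    have h2 : g = ∑ i, b.repr ⟨g, hg⟩ i • (b i : Fin n → ℂ) := by
      have h4 := congrArg W.subtype h1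
      rw [map_sum] at h4
      exact h4
    have h3 : ∀ i, ∑ j, v j * (b i : Fin n → ℂ) j = 0 := fun i => congrFun hv i
    rw [h2]
    calc ∑ j, v j * (∑ i, b.repr ⟨g, hg⟩ i • (b i : Fin n → ℂ)) j =
        ∑ j, ∑ i, b.repr ⟨g, hg⟩ i * (v j * (b i : Fin n → ℂ) j) := by
          refine sum_congr rfl (fun j _ => ?_)
          rw [Finset.sum_apply, mul_sum]
          exact sum_congr rfl (fun i _ => by rw [Pi.smul_apply, smul_eq_mul]; ring)
      _ = 0 := by
          rw [sum_comm]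
          refine sum_eq_zero (fun i _ => ?_)
          rw [← mul_sum, h3, mul_zero]
  · have h1 := LinearMap.finrank_range_add_finrank_ker φ
    have h2 := (LinearMap.range φ).finrank_le
    rw [finrank_fintype_fun_eq_card, Fintype.card_fin] at h1 h2
    omega

/-- **The rank of independent points and exponents**: Ax's bound `s + 2 n` plus the dimension of the
space of the directions which are compatible with all relations -/
theorem rank_Cl (hK : Cl Λ K) (hni : ∀ c c', c ≠ c' → NoHom (Λ c) (Λ c')) {z : Fin n → ℂ}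
    {t : Fin s → ℂ} (h : Ind Λ K ty z t) :
    ((s + 2 * n + (n + s) : ℕ) : ℕ∞) ≤ (MK (IFd K)).eRk (ET t ∪ EPM Λ ty z) +
      (finrank ℂ (Submodule.span ℂ (Grad (PM ty) K (Ph Λ ty (Fin.append z t)))) : ℕ) := by
  classical
  choose κ hE using fun c => exists_eig (Λ c)
  obtain ⟨D, hD, hD1, hD2⟩ := exists_gen hK hE h
  have hfin : (ET t ∪ EPM Λ ty z).Finite := (Pool.Agent.Y776.ET_finite t).union (EPM_finite z)
  set S := ET t ∪ EPM Λ ty z with hS
  have : Fintype S := hfin.fintype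
  rw [← rank_evS hfin]
  obtain ⟨V, hV1, hV2⟩ := exists_perp (Submodule.span ℂ (Grad (PM ty) K (Ph Λ ty (Fin.append z t))))
  -- the differentials and the values at the points and exponents
  let f : DF (IFd K) →ₗ[ℂ] (Fin s ⊕ (Fin n ⊕ Fin n) → ℂ) :=
    { toFun := fun δ => FvM Λ ty z t (δ : Derivation ℚ ℂ ℂ)
      map_add' := fun δ δ' => FvM_add z t (δ : Derivation ℚ ℂ ℂ) (δ' : Derivation ℚ ℂ ℂ)
      map_smul' := fun c δ => FvM_smul z t c (δ : Derivation ℚ ℂ ℂ) }
  let g : DF (IFd K) →ₗ[ℂ] (Fin (n + s) → ℂ) :=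
    { toFun := fun δ j => (δ : Derivation ℚ ℂ ℂ) (Fin.append z t j)
      map_add' := fun δ δ' => rfl
      map_smul' := fun c δ => rfl }
  have hf : LinearMap.range f = ⊤ := by
    by_contra hne
    obtain ⟨φ, hφ, hφ2⟩ := Submodule.exists_le_ker_of_lt_top _ (lt_top_iff_ne_top.2 hne)
    have h1 : ∀ w : Fin s ⊕ (Fin n ⊕ Fin n) → ℂ, φ w = ∑ k, φ (Pi.single k 1) * w k := by
      intro w
      conv_lhs => rw [← Finset.univ_sum_single w]
      rw [map_sum]
      refine sum_congr rfl (fun i _ => ?_)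
      have h2 : Pi.single i (w i) = (w i) • (Pi.single i (1 : ℂ) : Fin s ⊕ (Fin n ⊕ Fin n) → ℂ) := by
        rw [← Pi.single_smul, smul_eq_mul, mul_one]
      rw [h2, map_smul, smul_eq_mul, mul_comm]
    have h2 := ax_surj hE hni (fun c => hD.1 _ (hK.g₂ c)) (fun c => hD.1 _ (hK.g₃ c)) hD.2.1 hD.2.2
      hD1 hD2 (a := fun k => φ (Pi.single k 1)) (fun δ => by
        rw [← h1]
        exact hφ2 ⟨⟨δ.1, fun x hx => δ.2 x (hD.1 x hx)⟩, rfl⟩)
    apply hφ
    apply LinearMap.ext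
    intro w
    rw [h1 w]
    simp only [LinearMap.zero_apply]
    exact sum_eq_zero (fun k _ => by rw [congrFun h2 k]; simp)
  -- both factor through the values on `S`
  have hkerf : ∀ δ : DF (IFd K), evS (IFd K) S δ = 0 → f δ = 0 ∧ g δ = 0 := by
    intro δ hδ0
    have hδ : ∀ x ∈ S, (δ : Derivation ℚ ℂ ℂ) x = 0 := fun x hx => congrFun hδ0 ⟨x, hx⟩
    constructor
    · funext k
      rcases k with l | i | i
      · exact Pool.Agent.Y776.Tf_of_kill (hδ _ (Or.inl (Or.inl ⟨l, rfl⟩)))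
          (hδ _ (Or.inl (Or.inr ⟨l, rfl⟩)))
      · change om (Λ (ty i)) (δ : Derivation ℚ ℂ ℂ) (z i) - (δ : Derivation ℚ ℂ ℂ) (z i) = 0
        rw [om_of_kill (hδ _ (Or.inr (Or.inr (Or.inr ⟨i, rfl⟩)))),
          hδ _ (Or.inr (Or.inl ⟨i, rfl⟩)), sub_zero]
      · change et (Λ (ty i)) (δ : Derivation ℚ ℂ ℂ) (z i) = 0
        unfold et
        rw [om_of_kill (hδ _ (Or.inr (Or.inr (Or.inr ⟨i, rfl⟩)))), mul_zero, add_zero]
        exact hδ _ (Or.inr (Or.inr (Or.inl ⟨i, rfl⟩)))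
    · funext j
      change (δ : Derivation ℚ ℂ ℂ) (Fin.append z t j) = 0
      induction j using Fin.addCases with
      | left i => rw [Fin.append_left]; exact hδ _ (Or.inr (Or.inl ⟨i, rfl⟩))
      | right l => rw [Fin.append_right]; exact hδ _ (Or.inl (Or.inl ⟨l, rfl⟩))
  let p : DF (IFd K) →ₗ[ℂ] ((Fin s ⊕ (Fin n ⊕ Fin n) → ℂ) × (Fin (n + s) → ℂ)) := f.prod g
  have hp : finrank ℂ (LinearMap.range p) ≤ finrank ℂ (LinearMap.range (evS (IFd K) S)) := by
    have hker : LinearMap.ker (evS (IFd K) S) ≤ LinearMap.ker p := by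
      intro δ hδ
      obtain ⟨h1, h2⟩ := hkerf δ hδ
      exact Prod.ext h1 h2
    let u : LinearMap.range (evS (IFd K) S) →ₗ[ℂ] ((Fin s ⊕ (Fin n ⊕ Fin n) → ℂ) × (Fin (n + s) → ℂ)) :=
      ((LinearMap.ker (evS (IFd K) S)).liftQ p hker) ∘ₗ
        ((evS (IFd K) S).quotKerEquivRange.symm : LinearMap.range (evS (IFd K) S) →ₗ[ℂ] _)
    have h3 : LinearMap.range p ≤ LinearMap.range u := by
      rintro _ ⟨D, rfl⟩
      refine ⟨(evS (IFd K) S).quotKerEquivRange (Submodule.Quotient.mk D), ?_⟩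
      change ((LinearMap.ker (evS (IFd K) S)).liftQ p hker) ((evS (IFd K) S).quotKerEquivRange.symm
        ((evS (IFd K) S).quotKerEquivRange (Submodule.Quotient.mk D))) = p D
      rw [LinearEquiv.symm_apply_apply]
      exact Submodule.liftQ_apply _ _ _
    exact (Submodule.finrank_mono h3).trans (LinearMap.finrank_range_le u)
  -- the dimension of the range of `p`
  have hp2 : s + 2 * n + finrank ℂ V ≤ finrank ℂ (LinearMap.range p) := by
    let r : LinearMap.range p →ₗ[ℂ] (Fin s ⊕ (Fin n ⊕ Fin n) → ℂ) :=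
      (LinearMap.fst ℂ _ _) ∘ₗ (LinearMap.range p).subtype
    have h1 := LinearMap.finrank_range_add_finrank_ker r
    have h2 : LinearMap.range r = ⊤ := by
      rw [LinearMap.range_eq_top]
      intro w
      obtain ⟨δ, hδ⟩ := LinearMap.range_eq_top.1 hf w
      exact ⟨⟨p δ, δ, rfl⟩, hδ⟩
    rw [h2, finrank_top, finrank_fintype_fun_eq_card, Fintype.card_sum, Fintype.card_sum,
      Fintype.card_fin, Fintype.card_fin] at h1
    have h3 : ∀ v : V, ∃ x : LinearMap.ker r, ((x : LinearMap.range p) :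
        (Fin s ⊕ (Fin n ⊕ Fin n) → ℂ) × (Fin (n + s) → ℂ)) = (0, (v : Fin (n + s) → ℂ)) := by
      intro v
      obtain ⟨δ, hδ, hδ1, hδ2⟩ := vec_CM (Λ := Λ) (ty := ty) (K := K) (z := z) (t := t)
        (fun i => hK.half (h.zK i)) (v := v)
        (fun g hg => hV1 v v.2 g (Submodule.subset_span hg))
      let δ' : DF (IFd K) := ⟨δ, fun x hx => hδ.1 x hx⟩
      have e1 : f δ' = 0 := by
        funext k
        rcases k with l | i | i
        · exact hδ.2.2 l
        · change om (Λ (ty i)) δ (z i) - δ (z i) = 0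
          rw [(hδ.2.1 i).1, sub_self]
        · exact (hδ.2.1 i).2
      have e2 : g δ' = v := by
        funext j
        change δ (Fin.append z t j) = _
        induction j using Fin.addCases with
        | left i => rw [Fin.append_left]; exact hδ1 i
        | right l => rw [Fin.append_right]; exact hδ2 l
      refine ⟨⟨⟨p δ', δ', rfl⟩, e1⟩, ?_⟩
      exact Prod.ext e1 e2
    let ψ : V →ₗ[ℂ] ((Fin s ⊕ (Fin n ⊕ Fin n) → ℂ) × (Fin (n + s) → ℂ)) :=
      (LinearMap.inr ℂ _ _) ∘ₗ V.subtype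
    have h4 : LinearMap.range ψ ≤ LinearMap.range ((LinearMap.range p).subtype ∘ₗ
        (LinearMap.ker r).subtype) := by
      rintro _ ⟨v, rfl⟩
      obtain ⟨x, hx⟩ := h3 v
      exact ⟨x, hx⟩
    have h5 : finrank ℂ (LinearMap.range ψ) = finrank ℂ V := by
      apply LinearMap.finrank_range_of_inj
      intro v w hvw
      exact Subtype.ext (congrArg Prod.snd hvw)
    have h6 := (Submodule.finrank_mono h4).trans (LinearMap.finrank_range_le _)
    rw [h5] at h6
    omega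
  have : s + 2 * n + (n + s) ≤ finrank ℂ (LinearMap.range (evS (IFd K) S)) +
      finrank ℂ (Submodule.span ℂ (Grad (PM ty) K (Ph Λ ty (Fin.append z t)))) := by omega
  exact_mod_cast this

end Pool.Agent.H39D
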