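import Mathlib
import Pool.Agent.Y776.Sys
import Pool.Agent.Y119.CB.Loc2

/-!
# The points with many relations form a set of small dimension
-/

set_option autoImplicit false

open MvPolynomial Matrix Filter Set Module
open scoped Topology

noncomputable section

namespace Pool.Agent.H39D

open Pool.Agent.Y119.CB Pool.Agent.Y776

variable {n : ℕ} {σ : Type} [Fintype σ]

/-- a coordinate subspace -/
theorem dimH_coord {r : ℕ} {J : Fin r → Fin n} (hJ : Function.Injective J) :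
    dimH {w : Fin n → ℂ | ∀ i, w (J i) = 0} ≤ ((2 * (n - r) : ℕ) : ENNReal) := by
  classical
  let ι : Type := {j : Fin n // ∀ i, J i ≠ j}
  let e : (ι → ℂ) →ₗ[ℝ] (Fin n → ℂ) :=
    { toFun := fun v j => if h : ∀ i, J i ≠ j then v ⟨j, h⟩ else 0
      map_add' := fun v w => by
        funext j
        by_cases h : ∀ i, J i ≠ j
        · simp only [Pi.add_apply, dif_pos h]
        · simp only [Pi.add_apply, dif_neg h, add_zero]
      map_smul' := fun c v => by
        funext j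
        by_cases h : ∀ i, J i ≠ j
        · simp only [Pi.smul_apply, dif_pos h, RingHom.id_apply]
        · simp only [Pi.smul_apply, dif_neg h, RingHom.id_apply, smul_zero] }
  have hcd : ContDiff ℝ 1 (e : (ι → ℂ) → (Fin n → ℂ)) := (LinearMap.toContinuousLinearMap e).contDiff
  have h1 := hcd.dimH_range_le
  have hcard : Fintype.card ι = n - r := by
    have h2 : Fintype.card ι = Fintype.card (Fin n) - Fintype.card {j : Fin n // ∃ i, J i = j} := by
      rw [← Fintype.card_subtype_compl]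
      refine Fintype.card_congr (Equiv.subtypeEquivRight (fun j => ?_))
      push Not
      rfl
    have h3 : Fintype.card {j : Fin n // ∃ i, J i = j} = r := by
      have h4 : Fintype.card (Set.range J) = Fintype.card (Fin r) := Set.card_range_of_injective hJ
      rw [Fintype.card_fin] at h4
      exact (Fintype.card_congr (Equiv.subtypeEquivRight (fun j => by simp))).trans h4
    rw [h2, h3, Fintype.card_fin]
  have hfin : finrank ℝ (ι → ℂ) = 2 * (n - r) := by
    rw [Module.finrank_pi_fintype, Finset.sum_const, Complex.finrank_real_complex, Finset.card_univ,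
      hcard, smul_eq_mul, mul_comm]
  rw [hfin] at h1
  refine (dimH_mono ?_).trans h1
  intro w hw
  refine ⟨fun j => w j, ?_⟩
  funext j
  change (if h : ∀ i, J i ≠ j then w j else 0) = w j
  by_cases h : ∀ i, J i ≠ j
  · rw [dif_pos h]
  · rw [dif_neg h]
    push Not at h
    obtain ⟨i, rfl⟩ := h
    exact (hw i).symm

omit [Fintype σ] in
/-- near a regular point the common zeros form a set of dimension at most `2 (n - r)` -/
theorem dimH_loc {k : Type} [Field k] [Algebra k ℂ] {r : ℕ} {P : Fin n → σ → MvPolynomial σ k}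
    {Φ : (Fin n → ℂ) → σ → ℂ} {U : Set (Fin n → ℂ)} {F : Fin r → MvPolynomial σ k}
    {J : Fin r → Fin n} (hU : IsOpen U) (h : HypF P Φ U) {a : Fin n → ℂ} (ha : a ∈ U)
    (hdet : aeval (Φ a) (hh P F J) ≠ 0) :
    ∃ O ∈ 𝓝 a, dimH {b ∈ O | ∀ i, aeval (Φ b) (F i) = 0} ≤ ((2 * (n - r) : ℕ) : ENNReal) := by
  have hJ := J_inj F J hdet
  have hst : HasStrictFDerivAt (Ps F J Φ)
      (eqv F J hdet : (Fin n → ℂ) →L[ℂ] (Fin n → ℂ)) a := by
    rw [eqv_coe]
    exact strict_Ps F J hU h ha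
  have hst' := hst.to_localInverse
  obtain ⟨C, T, hT, hL⟩ := hst'.exists_lipschitzOnWith
  have hinv := hst.eventually_left_inverse
  have hcont : Tendsto (Ps F J Φ) (𝓝 a) (𝓝 (Ps F J Φ a)) := hst.continuousAt
  refine ⟨{b | Ps F J Φ b ∈ T} ∩ {b | hst.localInverse (Ps F J Φ) (eqv F J hdet) a (Ps F J Φ b) = b},
    Filter.inter_mem (hcont hT) hinv, ?_⟩
  refine (dimH_mono ?_).trans ((hL.mono (inter_subset_left
    (t := {w : Fin n → ℂ | ∀ i, w (J i) = 0}))).dimH_image_le.trans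
      ((dimH_mono inter_subset_right).trans (dimH_coord hJ)))
  rintro b ⟨⟨hb1, hb2⟩, hb3⟩
  refine ⟨Ps F J Φ b, ⟨hb1, fun i => ?_⟩, hb2⟩
  rw [Ps_J F J hJ]
  exact hb3 i

/-- **The points at which the rank of the relations is large** -/
theorem dimH_rank (P : Fin n → σ → MvPolynomial σ ℚ) {K : Subfield ℂ}
    (hk : (K : Set ℂ).Countable) {U : Set (Fin n → ℂ)} (hU : IsOpen U)
    {Φ : (Fin n → ℂ) → σ → ℂ}
    (hΦ : ∀ x ∈ U, ∀ s, HasFDerivAt (fun y => Φ y s) (∑ j, (aeval (Φ x) (P j s)) •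
      (ContinuousLinearMap.proj j : (Fin n → ℂ) →L[ℂ] ℂ)) x) (M : ℕ) :
    dimH {a | a ∈ U ∧ n ≤ finrank ℂ (Submodule.span ℂ (Grad P K (Φ a))) + M} ≤
      ((2 * M : ℕ) : ENNReal) := by
  classical
  have hkc : Countable K := hk.to_subtype
  have hRc : Countable (MvPolynomial σ K) := by
    rw [← Cardinal.mk_le_aleph0_iff]
    refine MvPolynomial.cardinalMk_le_max.trans ?_
    exact max_le (max_le (Cardinal.mk_le_aleph0_iff.2 hkc)
      (Cardinal.mk_le_aleph0_iff.2 inferInstance)) le_rfl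
  have hH : HypF (Pk P K) Φ U := by
    intro x hx s
    have h1 : (∑ j, (aeval (Φ x) (Pk P K j s)) •
        (ContinuousLinearMap.proj j : (Fin n → ℂ) →L[ℂ] ℂ)) = ∑ j, (aeval (Φ x) (P j s)) •
        (ContinuousLinearMap.proj j : (Fin n → ℂ) →L[ℂ] ℂ) :=
      Finset.sum_congr rfl (fun j _ => by rw [aeval_Pk])
    rw [h1]
    exact hΦ x hx s
  let B : (Σ r : ℕ, (Fin r → MvPolynomial σ K) × (Fin r → Fin n)) → Set (Fin n → ℂ) :=
    fun d => {a | n ≤ d.1 + M ∧ a ∈ U ∧ aeval (Φ a) (hh (Pk P K) d.2.1 d.2.2) ≠ 0 ∧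
      (∀ i, aeval (Φ a) (d.2.1 i) = 0)}
  have hB : ∀ d, dimH (B d) ≤ ((2 * M : ℕ) : ENNReal) := by
    intro d
    have h1 : ∀ a ∈ B d, ∃ O ∈ 𝓝 a, dimH {b ∈ O | ∀ i, aeval (Φ b) (d.2.1 i) = 0} ≤
        ((2 * M : ℕ) : ENNReal) := by
      rintro a ⟨h0, h2, h3, h4⟩
      obtain ⟨O, hO, h5⟩ := dimH_loc hU hH h2 h3
      refine ⟨O, hO, h5.trans ?_⟩
      have h6 : 2 * (n - d.1) ≤ 2 * M := by omega
      exact_mod_cast h6
    choose! O hO hO' using h1
    obtain ⟨t, hts, htc, ht⟩ := TopologicalSpace.countable_cover_nhdsWithin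
      (f := O) (s := B d) fun x hx => mem_nhdsWithin_of_mem_nhds (hO x hx)
    have h2 : B d ⊆ ⋃ x ∈ t, {b ∈ O x | ∀ i, aeval (Φ b) (d.2.1 i) = 0} := by
      intro b hb
      obtain ⟨x, hx, hbx⟩ := mem_iUnion₂.1 (ht hb)
      exact mem_iUnion₂.2 ⟨x, hx, hbx, hb.2.2.2⟩
    refine (dimH_mono h2).trans ?_
    rw [dimH_bUnion htc]
    exact iSup₂_le (fun x hx => hO' x (hts hx))
  have h2 : {a | a ∈ U ∧ n ≤ finrank ℂ (Submodule.span ℂ (Grad P K (Φ a))) + M} ⊆ ⋃ d, B d := by
    rintro a ⟨ha, hn⟩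
    obtain ⟨f, hf1, hf2, hf3⟩ := Submodule.exists_fun_fin_finrank_span_eq ℂ (Grad P K (Φ a))
    choose F hF1 hF2 using hf1
    obtain ⟨J, hJ⟩ := exists_minor f hf3
    have hf : f = fun i => gr (Pk P K) (Φ a) (F i) := funext fun i => by
      rw [hF2 i, gr_eq]
    refine mem_iUnion.2 ⟨⟨_, F, J⟩, hn, ha, ?_, hF1⟩
    change aeval (Φ a) (AJ (Pk P K) F J).det ≠ 0
    have h1 : aeval (Φ a) (AJ (Pk P K) F J).det =
        (Matrix.of fun i i' => f i (J i')).det := by
      have h2 := RingHom.map_det (aeval (Φ a) : MvPolynomial σ K →ₐ[K] ℂ).toRingHom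
        (AJ (Pk P K) F J)
      refine h2.trans ?_
      congr 1
      ext i i'
      rw [hf]
      rfl
    rw [h1]
    exact hJ
  refine (dimH_mono h2).trans ?_
  rw [dimH_iUnion]
  exact iSup_le hB

end Pool.Agent.H39D
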