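import Mathlib
import Pool.Agent.H39D.A
import Pool.Agent.H39D.C2

/-!
# Independent points and exponents of small rank form a set of small dimension
-/

set_option autoImplicit false

open Filter Finset Module
open scoped Topology PeriodPair ComplexConjugate

noncomputable section

namespace Pool.Agent.H39D

open H667R3 Pool.Agent.W245.EB Pool.Agent.TH813.Ell MvPolynomial Pool.Agent.Y685
open Pool.Agent.TH813.G (NoHom rosM)
open Pool.Agent.TH813.Rel (DF MK)
open Pool.Agent.Y776 (Tf lg ET Good Grad grC)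
open Pool.Agent.Y776.Cv (EPM EPM_finite FvM FvM_add FvM_smul)

variable {q n s : ℕ} {Λ : Fin q → PeriodPair} {ty : Fin n → Fin q} {K : Subfield ℂ}

/-- the independent tuples of rank less than `s + 2 n + m` -/
def Low (Λ : Fin q → PeriodPair) (K : Subfield ℂ) (ty : Fin n → Fin q) (s m : ℕ) :
    Set (Fin (n + s) → ℂ) :=
  {a | Ind Λ K ty (fun i => a (Fin.castAdd s i)) (fun l => a (Fin.natAdd n l)) ∧
    (MK (IFd K)).eRk (ET (fun l => a (Fin.natAdd n l)) ∪ EPM Λ ty (fun i => a (Fin.castAdd s i))) <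
      ((s + 2 * n + m : ℕ) : ℕ∞)}

theorem append_eta (a : Fin (n + s) → ℂ) :
    Fin.append (fun i => a (Fin.castAdd s i)) (fun l => a (Fin.natAdd n l)) = a := by
  funext j
  induction j using Fin.addCases with
  | left i => rw [Fin.append_left]
  | right l => rw [Fin.append_right]

/-- **the dimension of the set of the independent tuples of small rank** -/
theorem dim_Low (hK : Cl Λ K) (hni : ∀ c c', c ≠ c' → NoHom (Λ c) (Λ c')) (ty : Fin n → Fin q)
    (s m : ℕ) : dimH (Low Λ K ty s (m + 1)) ≤ ((2 * m : ℕ) : ENNReal) := by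
  refine (dimH_mono ?_).trans (dimH_rank (PM ty) hK.cnt isOpen_UM
    (fun x hx s₀ => Ph_der hx s₀) m (U := UM Λ ty s) (Φ := Ph Λ ty))
  rintro a ⟨hI, hr⟩
  refine ⟨fun i hi => hI.zK i (hK.lat_mem hi), ?_⟩
  have h1 := rank_Cl hK hni hI
  rw [append_eta] at h1
  obtain ⟨r, hr'⟩ := ENat.ne_top_iff_exists.1 (ne_top_of_lt hr)
  rw [← hr'] at h1 hr
  have h2 : r < s + 2 * n + (m + 1) := by exact_mod_cast hr
  have h3 : s + 2 * n + (n + s) ≤ r + finrank ℂ (Submodule.span ℂ (Grad (PM ty) K (Ph Λ ty a))) := by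
    exact_mod_cast h1
  omega

theorem Low_zero (hK : Cl Λ K) (hni : ∀ c c', c ≠ c' → NoHom (Λ c) (Λ c')) (ty : Fin n → Fin q)
    (s : ℕ) : Low Λ K ty s 0 = ∅ := by
  rw [Set.eq_empty_iff_forall_notMem]
  rintro a ⟨hI, hr⟩
  have h1 := rank_Cl hK hni hI
  obtain ⟨r, hr'⟩ := ENat.ne_top_iff_exists.1 (ne_top_of_lt hr)
  rw [← hr'] at h1 hr
  have h2 : r < s + 2 * n + 0 := by exact_mod_cast hr
  have h3 : s + 2 * n + (n + s) ≤ r + finrank ℂ (Submodule.span ℂ (Grad (PM ty) K (Ph Λ ty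
      (Fin.append (fun i => a (Fin.castAdd s i)) (fun l => a (Fin.natAdd n l)))))) := by
    exact_mod_cast h1
  have h4 := (Submodule.span ℂ (Grad (PM ty) K (Ph Λ ty
      (Fin.append (fun i => a (Fin.castAdd s i)) (fun l => a (Fin.natAdd n l)))))).finrank_le
  rw [finrank_fintype_fun_eq_card, Fintype.card_fin] at h4
  omega

/-- a maximal independent subfamily -/
theorem exists_sub (hK : Cl Λ K) (ty : Fin n → Fin q) (z : Fin n → ℂ) (t : Fin s → ℂ) :
    ∃ (n' s' : ℕ) (a : Fin n' → Fin n) (b : Fin s' → Fin s), Function.Injective a ∧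
      Function.Injective b ∧ Ind Λ K (ty ∘ a) (z ∘ a) (t ∘ b) ∧
      (∃ (A : Fin n → Fin n' → ℂ) (κ : Fin n → ℂ), (∀ i j, A i j ∈ kL (Λ (ty i))) ∧
        (∀ i j, ty (a j) ≠ ty i → A i j = 0) ∧ (∀ i, κ i ∈ K) ∧
        ∀ i, z i = ∑ j, A i j * z (a j) + κ i) ∧
      ∃ (B : Fin s → Fin s' → ℚ) (κ : Fin s → ℂ), (∀ l, κ l ∈ K) ∧
        ∀ l, t l = ∑ j, (B l j : ℂ) * t (b j) + κ l := by
  classical
  let P : ℕ → Prop := fun m => ∃ (n' s' : ℕ) (a : Fin n' → Fin n) (b : Fin s' → Fin s),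
    Function.Injective a ∧ Function.Injective b ∧ Ind Λ K (ty ∘ a) (z ∘ a) (t ∘ b) ∧ n' + s' = m
  have hP0 : P 0 := ⟨0, 0, fun i => i.elim0, fun i => i.elim0, fun i => i.elim0, fun i => i.elim0,
    ⟨fun _ _ _ _ _ => Subsingleton.elim _ _, fun _ _ => Subsingleton.elim _ _⟩, rfl⟩
  have hPle : ∀ m, P m → m ≤ n + s := by
    rintro m ⟨n', s', a, b, ha, hb, -, rfl⟩
    have h1 := Fintype.card_le_of_injective a ha
    have h2 := Fintype.card_le_of_injective b hb
    simp only [Fintype.card_fin] at h1 h2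
    omega
  obtain ⟨n', s', a, b, ha, hb, hI, hm⟩ := Nat.findGreatest_spec (P := P) (Nat.zero_le (n + s)) hP0
  have hmax : ∀ m, n' + s' < m → ¬ P m := by
    intro m hlt hPm
    exact Nat.findGreatest_is_greatest (P := P) (n := n + s) (by rw [← hm]; exact hlt)
      (hPle m hPm) hPm
  refine ⟨n', s', a, b, ha, hb, hI, ?_, ?_⟩
  · have key : ∀ i, ∃ (A : Fin n' → ℂ) (κ : ℂ), (∀ j, A j ∈ kL (Λ (ty i))) ∧
        (∀ j, ty (a j) ≠ ty i → A j = 0) ∧ κ ∈ K ∧ z i = ∑ j, A j * z (a j) + κ := by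
      intro i
      by_cases hi : ∃ j, a j = i
      · obtain ⟨j₀, rfl⟩ := hi
        refine ⟨Pi.single j₀ 1, 0, fun j => ?_, fun j hj => ?_, zero_mem K, ?_⟩
        · by_cases h : j = j₀
          · rw [h, Pi.single_eq_same]; exact one_mem _
          · rw [Pi.single_eq_of_ne h]; exact zero_mem _
        · rw [Pi.single_eq_of_ne]
          rintro rfl
          exact hj rfl
        · rw [sum_eq_single j₀]
          · rw [Pi.single_eq_same]; ring
          · intro j _ hj
            rw [Pi.single_eq_of_ne hj, zero_mul]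
          · intro h; exact absurd (mem_univ _) h
      · have hcon : ¬ Ind Λ K (ty ∘ (Fin.cons i a : Fin (n' + 1) → Fin n)) (z ∘ (Fin.cons i a : Fin (n' + 1) → Fin n)) (t ∘ b) := by
          intro h
          refine hmax (n' + s' + 1) (by omega) ⟨n' + 1, s', Fin.cons i a, b, ?_, hb, h, by omega⟩
          rw [Fin.cons_injective_iff]
          refine ⟨?_, ha⟩
          rintro ⟨j, hj⟩
          exact hi ⟨j, hj⟩
        have h1 : ∃ (c₀ : Fin q) (c : Fin (n' + 1) → ℂ), (∀ i, c i ∈ kL (Λ c₀)) ∧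
            (∀ j, (ty ∘ (Fin.cons i a : Fin (n' + 1) → Fin n)) j ≠ c₀ → c j = 0) ∧
            ∑ j, c j * (z ∘ (Fin.cons i a : Fin (n' + 1) → Fin n)) j ∈ K ∧ c ≠ 0 := by
          by_contra hno
          push Not at hno
          exact hcon ⟨fun c₀ c h1 h2 h3 => hno c₀ c h1 h2 h3, hI.ht⟩
        obtain ⟨c₀, c, hc, hct, hcK, hc0⟩ := h1
        rw [Fin.sum_univ_succ] at hcK
        simp only [Function.comp_apply, Fin.cons_zero, Fin.cons_succ] at hcK
        have hct0 : ty i ≠ c₀ → c 0 = 0 := fun h => hct 0 (by simpa using h)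
        have hcts : ∀ j : Fin n', ty (a j) ≠ c₀ → c j.succ = 0 := fun j h => hct j.succ (by simpa using h)
        have hc00 : c 0 ≠ 0 := by
          intro h0
          apply hc0
          have h2 := hI.hz c₀ (fun j => c j.succ) (fun j => hc _) (fun j hj => hcts j hj) (by
            rw [h0, zero_mul, zero_add] at hcK
            exact hcK)
          funext j
          refine Fin.cases h0 (fun j => ?_) j
          exact congrFun h2 j
        obtain rfl : ty i = c₀ := by
          by_contra hne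
          exact hc00 (hct0 hne)
        refine ⟨fun j => -c j.succ / c 0, (c 0 * z i + ∑ j, c j.succ * z (a j)) / c 0, fun j =>
          div_mem (neg_mem (hc _)) (hc _), fun j hj => by
            change -c j.succ / c 0 = 0
            rw [hcts j hj, neg_zero, zero_div],
          div_mem hcK (hK.kL_mem (hc 0)), ?_⟩
        have h5 : ∑ j, -c j.succ / c 0 * z (a j) = -(∑ j, c j.succ * z (a j)) / c 0 := by
          rw [← sum_neg_distrib, sum_div]
          exact sum_congr rfl (fun j _ => by ring)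
        rw [h5]
        field_simp
        ring
    choose A κ h1 h2 h3 h4 using key
    exact ⟨A, κ, h1, h2, h3, h4⟩
  · have key : ∀ l, ∃ (B : Fin s' → ℚ) (κ : ℂ), κ ∈ K ∧ t l = ∑ j, (B j : ℂ) * t (b j) + κ := by
      intro l
      by_cases hl : ∃ j, b j = l
      · obtain ⟨j₀, rfl⟩ := hl
        refine ⟨Pi.single j₀ 1, 0, zero_mem K, ?_⟩
        rw [sum_eq_single j₀]
        · rw [Pi.single_eq_same]; simp
        · intro j _ hj
          rw [Pi.single_eq_of_ne hj, Rat.cast_zero, zero_mul]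
        · intro h; exact absurd (mem_univ _) h
      · have hcon : ¬ Ind Λ K (ty ∘ a) (z ∘ a) (t ∘ (Fin.cons l b : Fin (s' + 1) → Fin s)) := by
          intro h
          refine hmax (n' + s' + 1) (by omega) ⟨n', s' + 1, a, Fin.cons l b, ha, ?_, h, by omega⟩
          rw [Fin.cons_injective_iff]
          refine ⟨?_, hb⟩
          rintro ⟨j, hj⟩
          exact hl ⟨j, hj⟩
        have h1 : ∃ c : Fin (s' + 1) → ℚ, ∑ j, c j • (t ∘ (Fin.cons l b : Fin (s' + 1) → Fin s)) j ∈ K ∧
            c ≠ 0 := by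
          by_contra hno
          push Not at hno
          exact hcon ⟨hI.hz, hno⟩
        obtain ⟨c, hcK, hc0⟩ := h1
        rw [Fin.sum_univ_succ] at hcK
        simp only [Function.comp_apply, Fin.cons_zero, Fin.cons_succ] at hcK
        have hc00 : c 0 ≠ 0 := by
          intro h0
          apply hc0
          have h2 := hI.ht (fun j => c j.succ) (by
            rw [h0, zero_smul, zero_add] at hcK
            exact hcK)
          funext j
          refine Fin.cases h0 (fun j => ?_) j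
          exact congrFun h2 j
        have hc00' : (c 0 : ℂ) ≠ 0 := by exact_mod_cast hc00
        refine ⟨fun j => -c j.succ / c 0, (c 0 • t l + ∑ j, c j.succ • t (b j)) / c 0,
          div_mem hcK (by
            have := SubfieldClass.ratCast_mem K (c 0)
            exact this), ?_⟩
        have h5 : ∑ j, ((-c j.succ / c 0 : ℚ) : ℂ) * t (b j) = -(∑ j, c j.succ • t (b j)) / c 0 := by
          rw [← sum_neg_distrib, sum_div]
          refine sum_congr rfl (fun j _ => ?_)
          rw [Rat.smul_def]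
          push_cast
          ring
        rw [h5, Rat.smul_def]
        field_simp
        ring
    choose B κ h1 h2 using key
    exact ⟨B, κ, h1, h2⟩

/-- an affine map -/
def aff {n' s' : ℕ} (A : Fin n → Fin n' → ℂ) (κ : Fin n → ℂ) (B : Fin s → Fin s' → ℂ)
    (κ' : Fin s → ℂ) (x : Fin (n' + s') → ℂ) : (Fin s → ℂ) × (Fin n → ℂ) :=
  (fun l => ∑ j, B l j * x (Fin.natAdd n' j) + κ' l, fun i => ∑ j, A i j * x (Fin.castAdd s' j) + κ i)

theorem dimH_aff {n' s' : ℕ} (A : Fin n → Fin n' → ℂ) (κ : Fin n → ℂ) (B : Fin s → Fin s' → ℂ)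
    (κ' : Fin s → ℂ) (S : Set (Fin (n' + s') → ℂ)) : dimH (aff A κ B κ' '' S) ≤ dimH S := by
  have h1 : ContDiff ℝ 1 (aff A κ B κ') := by
    unfold aff
    fun_prop
  exact h1.contDiffOn.dimH_image_le convex_univ (Set.subset_univ S)

/-- the dimension of a set of tuples -/
theorem dimH_tuple {N : ℕ} (S : Set (Fin N → ℂ)) : dimH S ≤ ((2 * N : ℕ) : ENNReal) := by
  refine (dimH_mono (Set.subset_univ S)).trans ?_
  rw [Real.dimH_univ_eq_finrank, Module.finrank_pi_fintype, Finset.sum_const,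
    Complex.finrank_real_complex, Finset.card_univ, Fintype.card_fin, smul_eq_mul, mul_comm]

/-- **The covering**: if the rank of all tuples of `S` is small, then the dimension is small -/
theorem dim_cover (hK : Cl Λ K) (hni : ∀ c c', c ≠ c' → NoHom (Λ c) (Λ c')) (ty : Fin n → Fin q)
    (S : Set ((Fin s → ℂ) × (Fin n → ℂ))) (d : ℕ) (m : ℕ → ℕ → ℕ)
    (hm : ∀ n' s', n' ≤ n → s' ≤ s → m n' s' = 0 ∨ m n' s' ≤ d + 1 ∨ n' + s' ≤ d)
    (h : ∀ t z, (t, z) ∈ S → ∀ (n' s' : ℕ) (a : Fin n' → Fin n) (b : Fin s' → Fin s),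
      Function.Injective a → Function.Injective b → Ind Λ K (ty ∘ a) (z ∘ a) (t ∘ b) →
      (∃ (A : Fin n → Fin n' → ℂ) (κ : Fin n → ℂ), (∀ i j, A i j ∈ kL (Λ (ty i))) ∧
        (∀ i j, ty (a j) ≠ ty i → A i j = 0) ∧ (∀ i, κ i ∈ K) ∧
        ∀ i, z i = ∑ j, A i j * z (a j) + κ i) →
      (∃ (B : Fin s → Fin s' → ℚ) (κ : Fin s → ℂ), (∀ l, κ l ∈ K) ∧
        ∀ l, t l = ∑ j, (B l j : ℂ) * t (b j) + κ l) →
      (MK (IFd K)).eRk (ET (t ∘ b) ∪ EPM Λ (ty ∘ a) (z ∘ a)) < ((s' + 2 * n' + m n' s' : ℕ) : ℕ∞)) :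
    dimH S ≤ ((2 * d : ℕ) : ENNReal) := by
  have hKc : Countable K := hK.cnt.to_subtype
  have hcov : S ⊆ ⋃ n' : Fin (n + 1), ⋃ s' : Fin (s + 1), ⋃ ty' : Fin n' → Fin q,
      ⋃ A : Fin n → Fin n' → K, ⋃ κ : Fin n → K, ⋃ B : Fin s → Fin s' → K, ⋃ κ' : Fin s → K,
      aff (fun i j => (A i j : ℂ)) (fun i => (κ i : ℂ)) (fun l j => (B l j : ℂ))
        (fun l => (κ' l : ℂ)) '' Low Λ K ty' s' (m n' s') := by
    rintro ⟨t, z⟩ htz
    obtain ⟨n', s', a, b, ha, hb, hI, ⟨A, κ, hA, hAt, hκ, hz⟩, ⟨B, κ', hκ', ht⟩⟩ :=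
      exists_sub hK ty z t
    have h1 := Fintype.card_le_of_injective a ha
    have h2 := Fintype.card_le_of_injective b hb
    simp only [Fintype.card_fin] at h1 h2
    have h3 := h t z htz n' s' a b ha hb hI ⟨A, κ, hA, hAt, hκ, hz⟩ ⟨B, κ', hκ', ht⟩
    simp only [Set.mem_iUnion]
    refine ⟨⟨n', by omega⟩, ⟨s', by omega⟩, ty ∘ a, fun i j => ⟨A i j, hK.kL_mem (hA i j)⟩,
      fun i => ⟨κ i, hκ i⟩, fun l j => ⟨B l j, SubfieldClass.ratCast_mem K (B l j)⟩,
      fun l => ⟨κ' l, hκ' l⟩, Fin.append (z ∘ a) (t ∘ b), ?_, ?_⟩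
    · have e1 : (fun i => (Fin.append (z ∘ a) (t ∘ b)) (Fin.castAdd s' i)) = z ∘ a := by
        funext i
        rw [Fin.append_left]
      have e2 : (fun l => (Fin.append (z ∘ a) (t ∘ b)) (Fin.natAdd n' l)) = t ∘ b := by
        funext l
        rw [Fin.append_right]
      constructor
      · rw [e1, e2]
        exact hI
      · rw [e1, e2]
        exact h3
    · refine Prod.ext ?_ ?_
      · funext l
        change ∑ j, (B l j : ℂ) * Fin.append (z ∘ a) (t ∘ b) (Fin.natAdd n' j) + κ' l = t l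
        rw [ht l]
        congr 1
        refine sum_congr rfl (fun j _ => ?_)
        rw [Fin.append_right]
        rfl
      · funext i
        change ∑ j, A i j * Fin.append (z ∘ a) (t ∘ b) (Fin.castAdd s' j) + κ i = z i
        conv_rhs => rw [hz i]
        congr 1
        refine sum_congr rfl (fun j _ => ?_)
        rw [Fin.append_left]
        rfl
  refine (dimH_mono hcov).trans ?_
  simp only [dimH_iUnion, iSup_le_iff]
  intro n' s' ty' A κ B κ'
  refine (dimH_aff _ _ _ _ _).trans ?_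
  rcases hm n' s' (by have := n'.2; omega) (by have := s'.2; omega) with h0 | h0 | h0
  · rw [h0, Low_zero hK hni, dimH_empty]
    exact zero_le
  · rcases Nat.eq_zero_or_pos (m n' s') with h1 | h1
    · rw [h1, Low_zero hK hni, dimH_empty]
      exact zero_le
    · obtain ⟨k, hk⟩ : ∃ k, m n' s' = k + 1 := ⟨m n' s' - 1, by omega⟩
      rw [hk]
      refine (dim_Low hK hni ty' s' k).trans ?_
      have : 2 * k ≤ 2 * d := by omega
      exact_mod_cast this
  · refine (dimH_tuple _).trans ?_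
    have : 2 * ((n' : ℕ) + s') ≤ 2 * d := by omega
    exact_mod_cast this

end Pool.Agent.H39D
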