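import Mathlib
import Pool.Agent.H39D.D

/-!
# The values of the exponential map of a product of tori and elliptic curves
-/

set_option autoImplicit false

open Filter Finset Module
open scoped Topology PeriodPair ComplexConjugate

noncomputable section

namespace Pool.Agent.H39D

open H667R3 Pool.Agent.W245.EB Pool.Agent.TH813.Ell MvPolynomial Pool.Agent.Y685
open Pool.Agent.TH813.G (NoHom rosM)
open Pool.Agent.TH813.Rel (DF MK)
open Pool.Agent.Y776 (Tf lg ET Good Grad grC)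
open Pool.Agent.Y776.Cv (EPM EPM_finite FvM FvM_add FvM_smul)

variable {q n s : ℕ} {Λ : Fin q → PeriodPair} {ty : Fin n → Fin q} {K : Subfield ℂ}

theorem Ind.tK {z : Fin n → ℂ} {t : Fin s → ℂ} (h : Ind Λ K ty z t) (l : Fin s) : t l ∉ K := by
  classical
  intro hl
  have h4 := h.ht (Pi.single l 1) (by
    rw [sum_eq_single l]
    · rw [Pi.single_eq_same, one_smul]; exact hl
    · intro j _ hj
      rw [Pi.single_eq_of_ne hj, zero_smul]
    · intro h; exact absurd (mem_univ l) h)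
  have h5 := congrFun h4 l
  rw [Pi.single_eq_same] at h5
  exact one_ne_zero h5

/-- Ax's bound -/
theorem rank_one (hK : Cl Λ K) (hni : ∀ c c', c ≠ c' → NoHom (Λ c) (Λ c')) {z : Fin n → ℂ}
    {t : Fin s → ℂ} (h : Ind Λ K ty z t) (hns : 0 < n + s) :
    ((s + 2 * n + 1 : ℕ) : ℕ∞) ≤ (MK (IFd K)).eRk (ET t ∪ EPM Λ ty z) := by
  classical
  have h1 := rank_Cl hK hni h
  obtain ⟨j₀, hj₀⟩ : ∃ j₀ : Fin (n + s), Fin.append z t j₀ ∉ K := by
    rcases Nat.eq_zero_or_pos n with hn | hn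
    · have hs : 0 < s := by omega
      exact ⟨Fin.natAdd n ⟨0, hs⟩, by rw [Fin.append_right]; exact h.tK _⟩
    · exact ⟨Fin.castAdd s ⟨0, hn⟩, by rw [Fin.append_left]; exact h.zK _⟩
  have hg := hK.good n s ty z t j₀ (fun i hi => h.zK i (hK.lat_mem hi)) hj₀
  have h2 : finrank ℂ (Submodule.span ℂ (Grad (PM ty) K (Ph Λ ty (Fin.append z t)))) < n + s := by
    have h3 : Submodule.span ℂ (Grad (PM ty) K (Ph Λ ty (Fin.append z t))) ≠ ⊤ := by
      intro h4
      apply hg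
      rw [h4]
      exact Submodule.mem_top
    have h4 := Submodule.finrank_lt h3
    rwa [finrank_fintype_fun_eq_card, Fintype.card_fin] at h4
  by_contra hcon
  push Not at hcon
  obtain ⟨r, hr⟩ := ENat.ne_top_iff_exists.1 (ne_top_of_lt hcon)
  rw [← hr] at h1 hcon
  have h5 : r < s + 2 * n + 1 := by exact_mod_cast hcon
  have h6 : s + 2 * n + (n + s) ≤ r + finrank ℂ (Submodule.span ℂ (Grad (PM ty) K
      (Ph Λ ty (Fin.append z t)))) := by exact_mod_cast h1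
  omega

/-- the components of the point and of its image -/
def Val (Λ : Fin q → PeriodPair) (ty : Fin n → Fin q) (r : (Fin s → ℂ) × (Fin n → ℂ)) : Set ℂ :=
  (Set.range r.1 ∪ Set.range r.2) ∪ {w | (∃ l, w = Complex.exp (r.1 l)) ∨
    ∃ i, r.2 i ∉ (Λ (ty i)).lattice ∧ (w = ℘[Λ (ty i)] (r.2 i) ∨ w = ℘'[Λ (ty i)] (r.2 i))}

theorem Val_finite (r : (Fin s → ℂ) × (Fin n → ℂ)) : (Val Λ ty r).Finite := by
  have h1 : {w | (∃ l, w = Complex.exp (r.1 l)) ∨
      ∃ i, r.2 i ∉ (Λ (ty i)).lattice ∧ (w = ℘[Λ (ty i)] (r.2 i) ∨ w = ℘'[Λ (ty i)] (r.2 i))} ⊆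
      Set.range (fun l => Complex.exp (r.1 l)) ∪ (Set.range (fun i => ℘[Λ (ty i)] (r.2 i)) ∪
        Set.range (fun i => ℘'[Λ (ty i)] (r.2 i))) := by
    rintro w (⟨l, rfl⟩ | ⟨i, -, rfl | rfl⟩)
    · exact Or.inl ⟨l, rfl⟩
    · exact Or.inr (Or.inl ⟨i, rfl⟩)
    · exact Or.inr (Or.inr ⟨i, rfl⟩)
  exact ((Set.finite_range _).union (Set.finite_range _)).union (((Set.finite_range _).union
    ((Set.finite_range _).union (Set.finite_range _))).subset h1)

/-- the rank of an independent subfamily -/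
theorem rank_sub (hK : Cl Λ K) {F : IntermediateField ℚ ℂ} (hF : F ≤ IFd K)
    {r : (Fin s → ℂ) × (Fin n → ℂ)} {n' s' : ℕ} {a : Fin n' → Fin n} {b : Fin s' → Fin s}
    (hI : Ind Λ K (ty ∘ a) (r.2 ∘ a) (r.1 ∘ b)) :
    (MK (IFd K)).eRk (ET (r.1 ∘ b) ∪ EPM Λ (ty ∘ a) (r.2 ∘ a)) ≤ (MK F).eRk (Val Λ ty r) + n' := by
  classical
  have h1 : ET (r.1 ∘ b) ∪ EPM Λ (ty ∘ a) (r.2 ∘ a) ⊆
      Val Λ ty r ∪ Set.range (fun j : Fin n' => zt (Λ (ty (a j))) (r.2 (a j))) := by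
    rintro x ((⟨l, rfl⟩ | ⟨l, rfl⟩) | (⟨i, rfl⟩ | ⟨i, rfl⟩ | ⟨i, rfl⟩))
    · exact Or.inl (Or.inl (Or.inl ⟨b l, rfl⟩))
    · exact Or.inl (Or.inr (Or.inl ⟨b l, rfl⟩))
    · exact Or.inl (Or.inl (Or.inr ⟨a i, rfl⟩))
    · exact Or.inr ⟨i, rfl⟩
    · exact Or.inl (Or.inr (Or.inr ⟨a i, fun h => hI.zK i (hK.lat_mem h), Or.inl rfl⟩))
  have h2 : (MK (IFd K)).eRk (Set.range (fun j : Fin n' => zt (Λ (ty (a j))) (r.2 (a j)))) ≤ n' := by
    refine ((MK (IFd K)).eRk_le_encard _).trans ?_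
    rw [← Set.image_univ]
    refine (Set.encard_image_le _ _).trans ?_
    rw [Set.encard_univ]
    simp
  refine ((MK (IFd K)).eRk_mono h1).trans (((MK (IFd K)).eRk_union_le_eRk_add_eRk _ _).trans ?_)
  exact add_le_add (rank_mono_base hF (Val_finite r)) h2

/-- **The points with small transcendence degree** -/
theorem dim_points (hni : ∀ c c', c ≠ c' → NoHom (Λ c) (Λ c')) (ty : Fin n → Fin q) (s : ℕ)
    {F : IntermediateField ℚ ℂ} (hF : (F : Set ℂ).Countable) (k : ℕ) :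
    dimH {r : (Fin s → ℂ) × (Fin n → ℂ) | (MK F).eRk (Val Λ ty r) < (k : ℕ∞)} ≤
      ((2 * ((k - 1) / 2) : ℕ) : ENNReal) ∧
    (k ≤ 2 → {r : (Fin s → ℂ) × (Fin n → ℂ) | (MK F).eRk (Val Λ ty r) < (k : ℕ∞)}.Countable) := by
  classical
  obtain ⟨K, hK, hFK⟩ := exists_Cl Λ hF
  have hF' : F ≤ IFd K := fun x hx => hFK hx
  constructor
  · refine dim_cover hK hni ty _ _ (fun n' s' => k - (s' + n')) (fun n' s' _ _ => by omega) ?_
    intro t z htz n' s' a b _ _ hI _ _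
    refine (rank_sub (r := (t, z)) hK hF' hI).trans_lt ?_
    obtain ⟨r, hr⟩ := ENat.ne_top_iff_exists.1 (ne_top_of_lt htz)
    rw [← hr]
    have h1 : (MK F).eRk (Val Λ ty (t, z)) < (k : ℕ∞) := htz
    rw [← hr] at h1
    have h2 : r < k := by exact_mod_cast h1
    have h3 : r + n' < s' + 2 * n' + (k - (s' + n')) := by omega
    exact_mod_cast h3
  · intro hk
    have hKc : Countable K := hK.cnt.to_subtype
    have h1 : {r : (Fin s → ℂ) × (Fin n → ℂ) | (MK F).eRk (Val Λ ty r) < (k : ℕ∞)} ⊆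
        Set.range (fun x : (Fin s → K) × (Fin n → K) =>
          ((fun l => (x.1 l : ℂ), fun i => (x.2 i : ℂ)) : (Fin s → ℂ) × (Fin n → ℂ))) := by
      rintro ⟨t, z⟩ htz
      have h1 : (MK F).eRk (Val Λ ty (t, z)) < (k : ℕ∞) := htz
      obtain ⟨n', s', a, b, -, -, hI, ⟨A, κ, -, -, hκ, hz⟩, ⟨B, κ', hκ', ht⟩⟩ :=
        exists_sub hK ty z t
      have h0 : n' + s' = 0 := by
        by_contra hne
        have h2 := rank_one hK hni hI (by omega)
        have h3 := h2.trans (rank_sub (r := (t, z)) hK hF' hI)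
        obtain ⟨r, hr⟩ := ENat.ne_top_iff_exists.1 (ne_top_of_lt h1)
        rw [← hr] at h1 h3
        have h4 : r < k := by exact_mod_cast h1
        have h5 : s' + 2 * n' + 1 ≤ r + n' := by exact_mod_cast h3
        omega
      obtain rfl : n' = 0 := by omega
      obtain rfl : s' = 0 := by omega
      refine ⟨(fun l => ⟨κ' l, hκ' l⟩, fun i => ⟨κ i, hκ i⟩), ?_⟩
      refine Prod.ext (funext fun l => ?_) (funext fun i => ?_)
      · change κ' l = t l
        rw [ht l]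
        simp
      · change κ i = z i
        rw [hz i]
        simp
    exact (Set.countable_range _).mono h1

end Pool.Agent.H39D
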