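import Mathlib
import Pool.Agent.H39D.D2
import Pool.Agent.Y685.G9

/-!
# One free variable more, and the closed fields of helper685
-/

set_option autoImplicit false

open Filter Finset Module
open scoped Topology PeriodPair ComplexConjugate

noncomputable section

namespace Pool.Agent.H39D

open H667R3 Pool.Agent.W245.EB Pool.Agent.TH813.Ell MvPolynomial Pool.Agent.Y685
open Pool.Agent.TH813.G (NoHom rosM)
open Pool.Agent.TH813.Rel (DF MK)
open Pool.Agent.Y776 (Tf lg ET Good Grad grC)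
open Pool.Agent.Y776.Cv (EPM EPM_finite FvM FvM_add FvM_smul)

section ext

variable {N : ℕ} {σ : Type} [Fintype σ]

/-- a system with one free variable more -/
def Pp (P : Fin N → σ → MvPolynomial σ ℚ) : Fin (N + 1) → Option σ → MvPolynomial (Option σ) ℚ :=
  fun j => Fin.cases (fun o => o.elim 1 (fun _ => 0)) (fun j o => o.elim 0 (fun s => rename some (P j s))) j

/-- the functions -/
def Fp (Φ : (Fin N → ℂ) → σ → ℂ) (x : Fin (N + 1) → ℂ) : Option σ → ℂ :=
  fun o => o.elim (x 0) (Φ (fun j => x j.succ))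

omit [Fintype σ] in
theorem aeval_Fp_rename (Φ : (Fin N → ℂ) → σ → ℂ) (x : Fin (N + 1) → ℂ) (Q : MvPolynomial σ ℚ) :
    aeval (Fp Φ x) (rename some Q) = aeval (Φ (fun j => x j.succ)) Q := by
  rw [aeval_rename]
  rfl

omit [Fintype σ] in
theorem Fp_der {P : Fin N → σ → MvPolynomial σ ℚ} {Φ : (Fin N → ℂ) → σ → ℂ} {U : Set (Fin N → ℂ)}
    (hΦ : ∀ x ∈ U, ∀ s, HasFDerivAt (fun y => Φ y s) (∑ j, (aeval (Φ x) (P j s)) •
      (ContinuousLinearMap.proj j : (Fin N → ℂ) →L[ℂ] ℂ)) x) {x : Fin (N + 1) → ℂ}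
    (hx : (fun j => x j.succ) ∈ U) (o : Option σ) :
    HasFDerivAt (fun y => Fp Φ y o) (∑ j, (aeval (Fp Φ x) (Pp P j o)) •
      (ContinuousLinearMap.proj j : (Fin (N + 1) → ℂ) →L[ℂ] ℂ)) x := by
  rcases o with _ | s
  · have h1 : (∑ j, (aeval (Fp Φ x) (Pp P j none)) •
      (ContinuousLinearMap.proj j : (Fin (N + 1) → ℂ) →L[ℂ] ℂ)) = ContinuousLinearMap.proj 0 := by
      rw [Fin.sum_univ_succ]
      have h2 : ∀ j : Fin N, aeval (Fp Φ x) (Pp P j.succ none) = 0 := fun j => by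
        simp [Pp]
      have h3 : aeval (Fp Φ x) (Pp P 0 none) = (1 : ℂ) := by simp [Pp]
      rw [h3, one_smul]
      ext v
      simp [h2]
    rw [h1]
    exact (ContinuousLinearMap.proj (R := ℂ) (φ := fun _ : Fin (N + 1) => ℂ) 0).hasFDerivAt
  · let T : (Fin (N + 1) → ℂ) →L[ℂ] (Fin N → ℂ) :=
      ContinuousLinearMap.pi (fun j : Fin N => ContinuousLinearMap.proj j.succ)
    have hT : HasFDerivAt (fun y : Fin (N + 1) → ℂ => fun j : Fin N => y j.succ) T x := T.hasFDerivAt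
    have h1 := HasFDerivAt.comp (f := fun y : Fin (N + 1) → ℂ => fun j : Fin N => y j.succ) x
      (hΦ _ hx s) hT
    have h2 : (∑ j, (aeval (Fp Φ x) (Pp P j (some s))) •
      (ContinuousLinearMap.proj j : (Fin (N + 1) → ℂ) →L[ℂ] ℂ)) =
        (∑ j, (aeval (Φ fun j => x j.succ) (P j s)) •
          (ContinuousLinearMap.proj j : (Fin N → ℂ) →L[ℂ] ℂ)).comp T := by
      rw [Fin.sum_univ_succ]
      have h3 : aeval (Fp Φ x) (Pp P 0 (some s)) = (0 : ℂ) := by simp [Pp]
      have h4 : ∀ j : Fin N, aeval (Fp Φ x) (Pp P j.succ (some s)) =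
          aeval (Φ fun j => x j.succ) (P j s) := fun j => aeval_Fp_rename Φ x (P j s)
      ext v
      simp only [h3, h4, _root_.add_apply, _root_.smul_apply, _root_.sum_apply,
        ContinuousLinearMap.comp_apply, ContinuousLinearMap.proj_apply,
        smul_eq_mul]
      rw [zero_mul, zero_add]
      rfl
    rw [h2]
    exact h1

end ext

variable {q n s : ℕ} {Λ : Fin q → PeriodPair} {ty : Fin n → Fin q} {K : Subfield ℂ}

/-- derivations with the right values on the functions are compatible -/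
theorem CM_of {z : Fin n → ℂ} {t : Fin s → ℂ} (hz : ∀ i, 2 * z i ∉ (Λ (ty i)).lattice)
    {v : Fin (n + s) → ℂ} {D : Derivation ℚ ℂ ℂ} (hk : ∀ c ∈ K, D c = 0)
    (hD : ∀ s₁, D (Ph Λ ty (Fin.append z t) s₁) =
      ∑ j, v j * aeval (Ph Λ ty (Fin.append z t)) (PM ty j s₁)) :
    D ∈ CM K Λ ty z t ∧ (∀ i, D (z i) = v (Fin.castAdd s i)) ∧
      ∀ l, D (t l) = v (Fin.natAdd n l) := by
  classical
  have k1 : ∀ i, D (z i) = v (Fin.castAdd s i) := by
    intro i
    have := hD (.z i)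
    rw [Fin.sum_univ_add] at this
    simpa [Ph, PA, PB, apply_ite] using this
  have k2 : ∀ i, D (zeta (Λ (ty i)) (z i)) = -v (Fin.castAdd s i) * ℘[Λ (ty i)] (z i) := by
    intro i
    have := hD (.ze i)
    rw [Fin.sum_univ_add] at this
    simpa [Ph, PA, PB, apply_ite] using this
  have k3 : ∀ i, D (℘[Λ (ty i)] (z i)) = v (Fin.castAdd s i) * ℘'[Λ (ty i)] (z i) := by
    intro i
    have := hD (.wp i)
    rw [Fin.sum_univ_add] at this
    simpa [Ph, PA, PB, apply_ite] using this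
  have k4 : ∀ l, D (t l) = v (Fin.natAdd n l) := by
    intro l
    have := hD (.t l)
    rw [Fin.sum_univ_add] at this
    simpa [Ph, PA, PB, apply_ite] using this
  have k5 : ∀ l, D (Complex.exp (t l)) = v (Fin.natAdd n l) * Complex.exp (t l) := by
    intro l
    have := hD (.e l)
    rw [Fin.sum_univ_add] at this
    simpa [Ph, PA, PB, apply_ite] using this
  refine ⟨⟨hk, fun i => ?_, fun l => ?_⟩, k1, k4⟩
  · have h1 : om (Λ (ty i)) D (z i) = v (Fin.castAdd s i) := by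
      unfold om
      rw [k3, mul_div_assoc, div_self (wp'_ne_zero _ (hz i)), mul_one]
    refine ⟨by rw [h1, k1], ?_⟩
    unfold et
    rw [h1, zt_of_notMem (two_mul_notMem_of _ (hz i)), k2]
    ring
  · unfold Tf lg
    rw [k4, k5, mul_div_assoc, div_self (Complex.exp_ne_zero _)]
    ring

/-- a vector which is orthogonal to the gradients of the relations gives a derivation, with one
free variable more -/
theorem vec_CMx {w : ℂ} {z : Fin n → ℂ} {t : Fin s → ℂ}
    (hz : ∀ i, 2 * z i ∉ (Λ (ty i)).lattice) {v : Fin (n + s + 1) → ℂ}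
    (h : ∀ g ∈ Grad (Pp (PM ty)) K (Fp (Ph Λ ty) (Fin.cons w (Fin.append z t))), ∑ j, v j * g j = 0) :
    ∃ D ∈ CM K Λ ty z t, D w = v 0 ∧ (∀ i, D (z i) = v (Fin.castAdd s i).succ) ∧
      ∀ l, D (t l) = v (Fin.natAdd n l).succ := by
  classical
  set y : Option (Sm q n s) → ℂ := Fp (Ph Λ ty) (Fin.cons w (Fin.append z t)) with hy
  obtain ⟨D', hD'⟩ := Pool.Agent.Y119.CB.exists_derivation (k := K) y
    (fun s₁ => ∑ j, v j * aeval y (Pp (PM ty) j s₁)) (by
      intro H hH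
      have h1 := h _ ⟨H, hH, rfl⟩
      rw [← h1]
      simp only [grC, Finset.mul_sum]
      rw [Finset.sum_comm]
      exact Finset.sum_congr rfl fun j _ => Finset.sum_congr rfl fun s _ => by ring)
  set D : Derivation ℚ ℂ ℂ := D'.restrictScalars ℚ with hDdef
  have hk : ∀ c ∈ K, D c = 0 := fun c hc => D'.map_algebraMap ⟨c, hc⟩
  have hD0 : D w = v 0 := by
    have h1 : D' (y none) = ∑ j, v j * aeval y (Pp (PM ty) j none) := hD' none
    have h2 : y none = w := rfl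
    rw [h2, Fin.sum_univ_succ] at h1
    have h3 : aeval y (Pp (PM (s := s) ty) 0 none) = (1 : ℂ) := by simp [Pp]
    have h4 : ∀ j : Fin (n + s), aeval y (Pp (PM ty) j.succ none) = (0 : ℂ) := fun j => by simp [Pp]
    rw [h3, mul_one] at h1
    simp only [h4, mul_zero, sum_const_zero, add_zero] at h1
    exact h1
  have hD : ∀ s₁, D (Ph Λ ty (Fin.append z t) s₁) =
      ∑ j, v j.succ * aeval (Ph Λ ty (Fin.append z t)) (PM ty j s₁) := by
    intro s₁
    have h1 : D' (y (some s₁)) = ∑ j, v j * aeval y (Pp (PM ty) j (some s₁)) := hD' (some s₁)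
    have h2 : y (some s₁) = Ph Λ ty (Fin.append z t) s₁ := by
      rw [hy]
      change Ph Λ ty (fun j => (Fin.cons w (Fin.append z t) : Fin (n + s + 1) → ℂ) j.succ) s₁ = _
      simp only [Fin.cons_succ]
    rw [h2, Fin.sum_univ_succ] at h1
    have h3 : aeval y (Pp (PM (s := s) ty) 0 (some s₁)) = (0 : ℂ) := by simp [Pp]
    have h4 : ∀ j : Fin (n + s), aeval y (Pp (PM ty) j.succ (some s₁)) =
        aeval (Ph Λ ty (Fin.append z t)) (PM ty j s₁) := fun j => by
      rw [hy]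
      refine (aeval_Fp_rename (Ph Λ ty) (Fin.cons w (Fin.append z t)) (PM ty j s₁)).trans ?_
      simp only [Fin.cons_succ]
    rw [h3, mul_zero, zero_add] at h1
    simp only [h4] at h1
    exact h1
  obtain ⟨h1, h2, h3⟩ := CM_of hz hk (v := fun j => v j.succ) hD
  exact ⟨D, h1, hD0, h2, h3⟩

/-- the rank with one free variable more -/
theorem rank_ext (hK : Cl Λ K) (hni : ∀ c c', c ≠ c' → NoHom (Λ c) (Λ c')) {z : Fin n → ℂ}
    {t : Fin s → ℂ} (h : Ind Λ K ty z t) (w : ℂ) :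
    ((s + 2 * n + (n + s + 1) : ℕ) : ℕ∞) ≤ (MK (IFd K)).eRk (insert w (ET t ∪ EPM Λ ty z)) +
      (finrank ℂ (Submodule.span ℂ (Grad (Pp (PM ty)) K
        (Fp (Ph Λ ty) (Fin.cons w (Fin.append z t))))) : ℕ) := by
  classical
  choose κ hE using fun c => exists_eig (Λ c)
  obtain ⟨D, hD, hD1, hD2⟩ := exists_gen hK hE h
  have hfin : (insert w (ET t ∪ EPM Λ ty z)).Finite :=
    ((Pool.Agent.Y776.ET_finite t).union (EPM_finite z)).insert w
  set S := insert w (ET t ∪ EPM Λ ty z) with hS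
  have : Fintype S := hfin.fintype
  rw [← rank_evS hfin]
  obtain ⟨V, hV1, hV2⟩ := exists_perp (Submodule.span ℂ (Grad (Pp (PM ty)) K
    (Fp (Ph Λ ty) (Fin.cons w (Fin.append z t)))))
  let f : DF (IFd K) →ₗ[ℂ] (Fin s ⊕ (Fin n ⊕ Fin n) → ℂ) :=
    { toFun := fun δ => FvM Λ ty z t (δ : Derivation ℚ ℂ ℂ)
      map_add' := fun δ δ' => FvM_add z t (δ : Derivation ℚ ℂ ℂ) (δ' : Derivation ℚ ℂ ℂ)
      map_smul' := fun c δ => FvM_smul z t c (δ : Derivation ℚ ℂ ℂ) }
  let g : DF (IFd K) →ₗ[ℂ] (Fin (n + s + 1) → ℂ) :=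
    { toFun := fun δ j => (δ : Derivation ℚ ℂ ℂ) ((Fin.cons w (Fin.append z t) : Fin (n + s + 1) → ℂ) j)
      map_add' := fun δ δ' => rfl
      map_smul' := fun c δ => rfl }
  have hf : LinearMap.range f = ⊤ := by
    by_contra hne
    obtain ⟨φ, hφ, hφ2⟩ := Submodule.exists_le_ker_of_lt_top _ (lt_top_iff_ne_top.2 hne)
    have h1 : ∀ w : Fin s ⊕ (Fin n ⊕ Fin n) → ℂ, φ w = ∑ k, φ (Pi.single k 1) * w k := by
      intro w
      conv_lhs => rw [← Finset.univ_sum_single w]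
      rw [map_sum]
      refine sum_congr rfl (fun i _ => ?_)
      have h2 : Pi.single i (w i) = (w i) • (Pi.single i (1 : ℂ) : Fin s ⊕ (Fin n ⊕ Fin n) → ℂ) := by
        rw [← Pi.single_smul, smul_eq_mul, mul_one]
      rw [h2, map_smul, smul_eq_mul, mul_comm]
    have h2 := ax_surj hE hni (fun c => hD.1 _ (hK.g₂ c)) (fun c => hD.1 _ (hK.g₃ c)) hD.2.1 hD.2.2
      hD1 hD2 (a := fun k => φ (Pi.single k 1)) (fun δ => by
        rw [← h1]
        exact hφ2 ⟨⟨δ.1, fun x hx => δ.2 x (hD.1 x hx)⟩, rfl⟩)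
    apply hφ
    apply LinearMap.ext
    intro w
    rw [h1 w]
    simp only [LinearMap.zero_apply]
    exact sum_eq_zero (fun k _ => by rw [congrFun h2 k]; simp)
  have hkerf : ∀ δ : DF (IFd K), evS (IFd K) S δ = 0 → f δ = 0 ∧ g δ = 0 := by
    intro δ hδ0
    have hδ : ∀ x ∈ S, (δ : Derivation ℚ ℂ ℂ) x = 0 := fun x hx => congrFun hδ0 ⟨x, hx⟩
    constructor
    · funext k
      rcases k with l | i | i
      · exact Pool.Agent.Y776.Tf_of_kill (hδ _ (Or.inr (Or.inl (Or.inl ⟨l, rfl⟩))))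
          (hδ _ (Or.inr (Or.inl (Or.inr ⟨l, rfl⟩))))
      · change om (Λ (ty i)) (δ : Derivation ℚ ℂ ℂ) (z i) - (δ : Derivation ℚ ℂ ℂ) (z i) = 0
        rw [om_of_kill (hδ _ (Or.inr (Or.inr (Or.inr (Or.inr ⟨i, rfl⟩))))),
          hδ _ (Or.inr (Or.inr (Or.inl ⟨i, rfl⟩))), sub_zero]
      · change et (Λ (ty i)) (δ : Derivation ℚ ℂ ℂ) (z i) = 0
        unfold et
        rw [om_of_kill (hδ _ (Or.inr (Or.inr (Or.inr (Or.inr ⟨i, rfl⟩))))), mul_zero, add_zero]
        exact hδ _ (Or.inr (Or.inr (Or.inr (Or.inl ⟨i, rfl⟩))))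
    · funext j
      refine Fin.cases ?_ (fun j => ?_) j
      · exact hδ _ (Or.inl rfl)
      · change (δ : Derivation ℚ ℂ ℂ) (Fin.append z t j) = 0
        induction j using Fin.addCases with
        | left i => rw [Fin.append_left]; exact hδ _ (Or.inr (Or.inr (Or.inl ⟨i, rfl⟩)))
        | right l => rw [Fin.append_right]; exact hδ _ (Or.inr (Or.inl (Or.inl ⟨l, rfl⟩)))
  let p : DF (IFd K) →ₗ[ℂ] ((Fin s ⊕ (Fin n ⊕ Fin n) → ℂ) × (Fin (n + s + 1) → ℂ)) := f.prod g
  have hp : finrank ℂ (LinearMap.range p) ≤ finrank ℂ (LinearMap.range (evS (IFd K) S)) := by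
    have hker : LinearMap.ker (evS (IFd K) S) ≤ LinearMap.ker p := by
      intro δ hδ
      obtain ⟨h1, h2⟩ := hkerf δ hδ
      exact Prod.ext h1 h2
    let u : LinearMap.range (evS (IFd K) S) →ₗ[ℂ] ((Fin s ⊕ (Fin n ⊕ Fin n) → ℂ) × (Fin (n + s + 1) → ℂ)) :=
      ((LinearMap.ker (evS (IFd K) S)).liftQ p hker) ∘ₗ
        ((evS (IFd K) S).quotKerEquivRange.symm : LinearMap.range (evS (IFd K) S) →ₗ[ℂ] _)
    have h3 : LinearMap.range p ≤ LinearMap.range u := by
      rintro _ ⟨D, rfl⟩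
      refine ⟨(evS (IFd K) S).quotKerEquivRange (Submodule.Quotient.mk D), ?_⟩
      change ((LinearMap.ker (evS (IFd K) S)).liftQ p hker) ((evS (IFd K) S).quotKerEquivRange.symm
        ((evS (IFd K) S).quotKerEquivRange (Submodule.Quotient.mk D))) = p D
      rw [LinearEquiv.symm_apply_apply]
      exact Submodule.liftQ_apply _ _ _
    exact (Submodule.finrank_mono h3).trans (LinearMap.finrank_range_le u)
  have hp2 : s + 2 * n + finrank ℂ V ≤ finrank ℂ (LinearMap.range p) := by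
    let r : LinearMap.range p →ₗ[ℂ] (Fin s ⊕ (Fin n ⊕ Fin n) → ℂ) :=
      (LinearMap.fst ℂ _ _) ∘ₗ (LinearMap.range p).subtype
    have h1 := LinearMap.finrank_range_add_finrank_ker r
    have h2 : LinearMap.range r = ⊤ := by
      rw [LinearMap.range_eq_top]
      intro w
      obtain ⟨δ, hδ⟩ := LinearMap.range_eq_top.1 hf w
      exact ⟨⟨p δ, δ, rfl⟩, hδ⟩
    rw [h2, finrank_top, finrank_fintype_fun_eq_card, Fintype.card_sum, Fintype.card_sum,
      Fintype.card_fin, Fintype.card_fin] at h1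
    have h3 : ∀ v : V, ∃ x : LinearMap.ker r, ((x : LinearMap.range p) :
        (Fin s ⊕ (Fin n ⊕ Fin n) → ℂ) × (Fin (n + s + 1) → ℂ)) = (0, (v : Fin (n + s + 1) → ℂ)) := by
      intro v
      obtain ⟨δ, hδ, hδ0, hδ1, hδ2⟩ := vec_CMx (Λ := Λ) (ty := ty) (K := K) (w := w) (z := z) (t := t)
        (fun i => hK.half (h.zK i)) (v := v)
        (fun g hg => hV1 v v.2 g (Submodule.subset_span hg))
      let δ' : DF (IFd K) := ⟨δ, fun x hx => hδ.1 x hx⟩
      have e1 : f δ' = 0 := by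
        funext k
        rcases k with l | i | i
        · exact hδ.2.2 l
        · change om (Λ (ty i)) δ (z i) - δ (z i) = 0
          rw [(hδ.2.1 i).1, sub_self]
        · exact (hδ.2.1 i).2
      have e2 : g δ' = v := by
        funext j
        refine Fin.cases hδ0 (fun j => ?_) j
        change δ (Fin.append z t j) = _
        induction j using Fin.addCases with
        | left i => rw [Fin.append_left]; exact hδ1 i
        | right l => rw [Fin.append_right]; exact hδ2 l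
      refine ⟨⟨⟨p δ', δ', rfl⟩, e1⟩, ?_⟩
      exact Prod.ext e1 e2
    let ψ : V →ₗ[ℂ] ((Fin s ⊕ (Fin n ⊕ Fin n) → ℂ) × (Fin (n + s + 1) → ℂ)) :=
      (LinearMap.inr ℂ _ _) ∘ₗ V.subtype
    have h4 : LinearMap.range ψ ≤ LinearMap.range ((LinearMap.range p).subtype ∘ₗ
        (LinearMap.ker r).subtype) := by
      rintro _ ⟨v, rfl⟩
      obtain ⟨x, hx⟩ := h3 v
      exact ⟨x, hx⟩
    have h5 : finrank ℂ (LinearMap.range ψ) = finrank ℂ V := by
      apply LinearMap.finrank_range_of_inj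
      intro v w hvw
      exact Subtype.ext (congrArg Prod.snd hvw)
    have h6 := (Submodule.finrank_mono h4).trans (LinearMap.finrank_range_le _)
    rw [h5] at h6
    omega
  have : s + 2 * n + (n + s + 1) ≤ finrank ℂ (LinearMap.range (evS (IFd K) S)) +
      finrank ℂ (Submodule.span ℂ (Grad (Pp (PM ty)) K
        (Fp (Ph Λ ty) (Fin.cons w (Fin.append z t))))) := by omega
  exact_mod_cast this

/-- the tuples `(w, z, t)` of rank less than `s + 2 n + m`, with `(z, t)` independent -/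
def LowX (Λ : Fin q → PeriodPair) (K : Subfield ℂ) (ty : Fin n → Fin q) (s m : ℕ) :
    Set (Fin (n + s + 1) → ℂ) :=
  {a | Ind Λ K ty (fun i => a (Fin.castAdd s i).succ) (fun l => a (Fin.natAdd n l).succ) ∧
    (MK (IFd K)).eRk (insert (a 0) (ET (fun l => a (Fin.natAdd n l).succ) ∪
      EPM Λ ty (fun i => a (Fin.castAdd s i).succ))) < ((s + 2 * n + m : ℕ) : ℕ∞)}

theorem cons_eta (a : Fin (n + s + 1) → ℂ) :
    (Fin.cons (a 0) (Fin.append (fun i => a (Fin.castAdd s i).succ) (fun l => a (Fin.natAdd n l).succ)) :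
      Fin (n + s + 1) → ℂ) = a := by
  funext j
  refine Fin.cases rfl (fun j => ?_) j
  rw [Fin.cons_succ]
  induction j using Fin.addCases with
  | left i => rw [Fin.append_left]
  | right l => rw [Fin.append_right]

theorem dim_LowX (hK : Cl Λ K) (hni : ∀ c c', c ≠ c' → NoHom (Λ c) (Λ c')) (ty : Fin n → Fin q)
    (s m : ℕ) : dimH (LowX Λ K ty s (m + 1)) ≤ ((2 * m : ℕ) : ENNReal) := by
  have hU : IsOpen {x : Fin (n + s + 1) → ℂ | (fun j => x j.succ) ∈ UM Λ ty s} :=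
    isOpen_UM.preimage (by fun_prop)
  refine (dimH_mono ?_).trans (dimH_rank (Pp (PM ty)) hK.cnt hU
    (fun x hx s₀ => Fp_der (U := UM Λ ty s) (fun x hx s₀ => Ph_der hx s₀) hx s₀) m (Φ := Fp (Ph Λ ty)))
  rintro a ⟨hI, hr⟩
  refine ⟨fun i hi => hI.zK i (hK.lat_mem hi), ?_⟩
  have h1 := rank_ext hK hni hI (a 0)
  rw [cons_eta] at h1
  obtain ⟨r, hr'⟩ := ENat.ne_top_iff_exists.1 (ne_top_of_lt hr)
  rw [← hr'] at h1 hr
  have h2 : r < s + 2 * n + (m + 1) := by exact_mod_cast hr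
  have h3 : s + 2 * n + (n + s + 1) ≤ r + finrank ℂ (Submodule.span ℂ (Grad (Pp (PM ty)) K
      (Fp (Ph Λ ty) a))) := by
    exact_mod_cast h1
  omega

theorem LowX_zero (hK : Cl Λ K) (hni : ∀ c c', c ≠ c' → NoHom (Λ c) (Λ c')) (ty : Fin n → Fin q)
    (s : ℕ) : LowX Λ K ty s 0 = ∅ := by
  rw [Set.eq_empty_iff_forall_notMem]
  rintro a ⟨hI, hr⟩
  have h1 := rank_ext hK hni hI (a 0)
  rw [cons_eta] at h1
  obtain ⟨r, hr'⟩ := ENat.ne_top_iff_exists.1 (ne_top_of_lt hr)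
  rw [← hr'] at h1 hr
  have h2 : r < s + 2 * n + 0 := by exact_mod_cast hr
  have h3 : s + 2 * n + (n + s + 1) ≤ r + finrank ℂ (Submodule.span ℂ (Grad (Pp (PM ty)) K
      (Fp (Ph Λ ty) a))) := by
    exact_mod_cast h1
  have h4 := (Submodule.span ℂ (Grad (Pp (PM ty)) K (Fp (Ph Λ ty) a))).finrank_le
  rw [finrank_fintype_fun_eq_card, Fintype.card_fin] at h4
  omega

end Pool.Agent.H39D
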