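import Mathlib
import Pool.Agent.H39D.E
import Pool.Agent.H39E.Main

/-!
# The closed fields of helper685 and one lattice
-/

set_option autoImplicit false

open Filter Finset Module
open scoped Topology PeriodPair ComplexConjugate

noncomputable section

namespace Pool.Agent.H39D

open H667R3 Pool.Agent.W245.EB Pool.Agent.TH813.Ell MvPolynomial Pool.Agent.Y685
open Pool.Agent.TH813.G (NoHom rosM)
open Pool.Agent.TH813.Rel (DF MK rk_le_of_subset_cl)
open Pool.Agent.Y776 (Tf lg ET Good Grad grC)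
open Pool.Agent.Y776.Cv (EPM EPM_finite FvM FvM_add FvM_smul)

variable {n s : ℕ} {L : PeriodPair} {K : Subfield ℂ}

/-- the names of the functions of one lattice -/
def fS : Sm 1 n s → Sf n s
  | .g _ => .g
  | .z i => .z i
  | .ze i => .ze i
  | .wp i => .wp i
  | .wp' i => .wp' i
  | .t l => .t l
  | .e l => .e l

theorem fS_bij : Function.Bijective (fS (n := n) (s := s)) := by
  constructor
  · intro u w h
    cases u <;> cases w <;> simp [fS] at h ⊢ <;> try exact h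
    exact Subsingleton.elim _ _
  · intro u
    cases u with
    | g => exact ⟨.g 0, rfl⟩
    | z i => exact ⟨.z i, rfl⟩
    | ze i => exact ⟨.ze i, rfl⟩
    | wp i => exact ⟨.wp i, rfl⟩
    | wp' i => exact ⟨.wp' i, rfl⟩
    | t l => exact ⟨.t l, rfl⟩
    | e l => exact ⟨.e l, rfl⟩

theorem Pf_fS (ty : Fin n → Fin 1) (x : Fin (n + s) → ℂ) (u : Sm 1 n s) :
    Pf' L x (fS u) = Ph (fun _ => L) ty x u := by
  cases u <;> rfl

theorem PF_fS (ty : Fin n → Fin 1) (j : Fin (n + s)) (u : Sm 1 n s) :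
    PF' j (fS u) = rename fS (PM ty j u) := by
  induction j using Fin.addCases with
  | left j =>
    rw [PF'_left, PM_left]
    cases u with
    | g => simp [fS, PA, Y685.PA]
    | z i => by_cases h : j = i <;> simp [fS, PA, Y685.PA, h]
    | ze i => by_cases h : j = i <;> simp [fS, PA, Y685.PA, h]
    | wp i => by_cases h : j = i <;> simp [fS, PA, Y685.PA, h]
    | wp' i => by_cases h : j = i <;> simp [fS, PA, Y685.PA, h, map_ofNat]
    | t l => simp [fS, PA, Y685.PA]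
    | e l => simp [fS, PA, Y685.PA]
  | right j =>
    rw [PF'_right, PM_right]
    cases u with
    | g => simp [fS, PB, Y685.PB]
    | z i => simp [fS, PB, Y685.PB]
    | ze i => simp [fS, PB, Y685.PB]
    | wp i => simp [fS, PB, Y685.PB]
    | wp' i => simp [fS, PB, Y685.PB]
    | t l => by_cases h : j = l <;> simp [fS, PB, Y685.PB, h]
    | e l => by_cases h : j = l <;> simp [fS, PB, Y685.PB, h]

theorem Grad_fS (ty : Fin n → Fin 1) (x : Fin (n + s) → ℂ) :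
    Grad (PM ty) K (Ph (fun _ => L) ty x) ⊆ Grad PF' K (Pf' L x) := by
  classical
  rintro g ⟨H, hH, rfl⟩
  have h0 : Pf' L x ∘ fS = Ph (fun _ => L) ty x := funext fun u => Pf_fS ty x u
  refine ⟨rename fS H, ?_, ?_⟩
  · rw [aeval_rename, h0, hH]
  · funext j
    unfold grC
    refine Fintype.sum_bijective fS fS_bij _ _ (fun u => ?_)
    rw [pderiv_rename fS_bij.injective, aeval_rename, h0, PF_fS ty, aeval_rename, h0]

/-- a closed field and one lattice -/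
theorem toCl (hK : Fld K) (hL : L ∈ LK K) : Cl (fun _ : Fin 1 => L) K where
  cnt := hK.cnt
  alg := hK.alg
  exp := hK.exp
  lat := fun _ => hL
  g₂ := fun _ => hK.g₂ L hL
  g₃ := fun _ => hK.g₃ L hL
  wp := fun _ => hK.wp L hL
  zt := fun _ => hK.zt L hL
  good := fun n s ty z t j₀ hz hj h => hK.good L hL n s z t j₀ hz hj
    (Submodule.span_mono (Grad_fS ty _) h)

theorem noHom1 (Λ : Fin 1 → PeriodPair) : ∀ c c', c ≠ c' → NoHom (Λ c) (Λ c') :=
  fun c c' h => absurd (Subsingleton.elim c c') h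

/-- Schneider's theorem as a rank -/
theorem rank_A {z : ℂ} (hz : z ∉ L.lattice) {A : Set ℂ} (hA : A.Finite) (h2 : L.g₂ ∈ A)
    (h3 : L.g₃ ∈ A) (hzA : z ∈ A) (hP : ℘[L] z ∈ A) : ((1 : ℕ) : ℕ∞) ≤ (MK ℚ).eRk A := by
  obtain ⟨r, hr, hr'⟩ := trd_eq ℚ hA
  rw [hr]
  rcases Nat.eq_zero_or_pos r with rfl | h0
  · exfalso
    rw [Nat.cast_zero] at hr'
    have h1 : Algebra.IsAlgebraic ℚ (IntermediateField.adjoin ℚ A) :=
      trdeg_eq_zero_iff.1 hr'
    have h4 : ∀ x ∈ A, IsAlgebraic ℚ x := by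
      intro x hx
      have h5 := h1.isAlgebraic (⟨x, IntermediateField.subset_adjoin ℚ A hx⟩ :
        IntermediateField.adjoin ℚ A)
      exact h5.algebraMap (A := ℂ)
    exact H39E.schneider L hz (h4 _ h2) (h4 _ h3) (h4 _ hzA) (h4 _ hP)
  · exact_mod_cast h0

/-- a maximal independent subfamily, for one lattice -/
theorem exists_sub1 (hK : Cl (fun _ : Fin 1 => L) K) (z : Fin n → ℂ) :
    ∃ (m : ℕ) (a : Fin m → Fin n), Function.Injective a ∧
      Ind (s := 0) (fun _ : Fin 1 => L) K (fun _ => 0) (z ∘ a) ![] ∧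
      ∃ (A : Fin n → Fin m → ℂ) (κ : Fin n → ℂ), (∀ i j, A i j ∈ kL L) ∧ (∀ i, κ i ∈ K) ∧
        ∀ i, z i = ∑ j, A i j * z (a j) + κ i := by
  obtain ⟨n', s', a, b, ha, -, hI, ⟨A, κ, hA, -, hκ, hz⟩, -⟩ :=
    exists_sub hK (fun _ => 0) z (![] : Fin 0 → ℂ)
  exact ⟨n', a, ha, ⟨hI.hz, fun _ _ => Subsingleton.elim _ _⟩, A, κ, hA, hκ, hz⟩

theorem ET_nil : ET (![] : Fin 0 → ℂ) = ∅ := by
  rw [Set.eq_empty_iff_forall_notMem]
  rintro x (⟨i, -⟩ | ⟨i, -⟩) <;> exact i.elim0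

/-- for a fixed lattice over the field: points of the field in the space of the points -/
theorem reduceK (hK : Fld K) (hL : L ∈ LK K) {p : Fin n → ℂ} {w : ℂ} (hwX : w ∈ Submodule.span (kL L) (Set.range p)) (hwK : w ∈ K) (hwL : w ∉ L.lattice)
    {m : ℕ} {a : Fin m → Fin n} :
    (MK (IFd K)).eRk (EP L (p ∘ a)) + 1 ≤ (MK ℚ).eRk ({L.g₂, L.g₃} ∪ EP L p) := by
  have hk : ∀ x : ℚ, algebraMap ℚ ℂ x ∈ K := fun x => by
    rw [eq_ratCast]
    exact SubfieldClass.ratCast_mem K x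
  obtain ⟨A, hA⟩ : ∃ A : Set ℂ, A = {L.g₂, L.g₃} ∪ EP L (fun _ : Fin 1 => w) := ⟨_, rfl⟩
  have hAfin : A.Finite := by rw [hA]; exact (Set.toFinite _).union (EP_finite _)
  have hAK : A ⊆ K := by
    rw [hA]
    rintro x ((rfl | rfl) | hx)
    · exact hK.g₂ _ hL
    · exact hK.g₃ _ hL
    · exact H39E.EP_mem hK hL (fun _ => hwK) hx
  have h3 : ((1 : ℕ) : ℕ∞) ≤ (MK ℚ).eRk A := by
    refine rank_A hwL hAfin ?_ ?_ ?_ ?_
    · rw [hA]; exact Or.inl (Or.inl rfl)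
    · rw [hA]; exact Or.inl (Or.inr rfl)
    · rw [hA]; exact Or.inr (Or.inl ⟨0, rfl⟩)
    · rw [hA]; exact Or.inr (Or.inr (Or.inr ⟨0, rfl⟩))
  have h4 := union_ge (k := ℚ) hK hk hAfin (EP_finite (L := L) (p ∘ a)) hAK
  have h5 : (MK ℚ).eRk (A ∪ EP L (p ∘ a)) ≤ (MK ℚ).eRk ({L.g₂, L.g₃} ∪ EP L p) := by
    rw [← MK_FR ℚ]
    apply rk_le_of_subset_cl
    have h6 : ∀ x ∈ {L.g₂, L.g₃} ∪ EP L p, x ∈ (MK (FR ℚ)).closure ({L.g₂, L.g₃} ∪ EP L p) := by
      intro x hx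
      rw [mem_cl_iff]
      exact fun δ _ hS => hS x hx
    rintro x (hx | hx)
    · rw [hA] at hx
      rw [mem_cl_iff]
      intro δ _ hS
      have h2 : δ L.g₂ = 0 := hS _ (Or.inl (Or.inl rfl))
      have h3 : δ L.g₃ = 0 := hS _ (Or.inl (Or.inr rfl))
      have hk := kill_spanK h2 h3 (fun x hx => hS x (Or.inr hx)) hwX hwL
      rcases hx with (rfl | rfl) | ⟨i, rfl⟩ | ⟨i, rfl⟩ | ⟨i, rfl⟩
      · exact h2
      · exact h3
      · exact hk.1
      · exact hk.2.1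
      · exact hk.2.2
    · refine h6 x (Or.inr ?_)
      rcases hx with ⟨i, rfl⟩ | ⟨i, rfl⟩ | ⟨i, rfl⟩
      · exact Or.inl ⟨a i, rfl⟩
      · exact Or.inr (Or.inl ⟨a i, rfl⟩)
      · exact Or.inr (Or.inr ⟨a i, rfl⟩)
  refine le_trans ?_ (h4.trans h5)
  rw [add_comm]
  exact add_le_add (by exact_mod_cast h3) le_rfl

end Pool.Agent.H39D
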