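import Mathlib
import Pool.Agent.H39D.F

/-!
# The dimension of the set of the failures of the elliptic Schanuel conjecture
-/

set_option autoImplicit false

open Filter Finset Module
open scoped Topology PeriodPair ComplexConjugate

noncomputable section

namespace Pool.Agent.H39D

open H667R3 Pool.Agent.W245.EB Pool.Agent.TH813.Ell MvPolynomial Pool.Agent.Y685
open Pool.Agent.TH813.G (NoHom rosM)
open Pool.Agent.TH813.Rel (DF MK rk_le_of_subset_cl)
open Pool.Agent.Y776 (Tf lg ET Good Grad grC)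
open Pool.Agent.Y776.Cv (EPM EPM_finite FvM FvM_add FvM_smul)

variable {n k : ℕ} {L : PeriodPair} {K : Subfield ℂ}

/-- the points with small rank, one lattice -/
def SL (L : PeriodPair) (n k : ℕ) : Set (Fin n → ℂ) :=
  {p | (∀ i, p i ∉ L.lattice) ∧ LinearIndependent (kL L) p ∧
    (MK ℚ).eRk ({L.g₂, L.g₃} ∪ EP L p) < (k : ℕ∞)}

theorem kQ (K : Subfield ℂ) (x : ℚ) : algebraMap ℚ ℂ x ∈ K := by
  rw [eq_ratCast]
  exact SubfieldClass.ratCast_mem K x

/-- all multiples of the points by a number are independent modulo the field, or there is a point -/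
theorem point {L' : PeriodPair} {c : ℂ} (h : Hm L L' c) (hL' : L' ∈ LK K)
    {p : Fin n → ℂ} (hp : LinearIndependent (kL L) p) :
    (∀ a : Fin n → ℂ, (∀ i, a i ∈ kL L') → ∑ i, a i * (c * p i) ∈ K → a = 0) ∨
    ∃ w ∈ Submodule.span (kL L) (Set.range p), c * w ∈ K ∧ w ∉ L.lattice := by
  have hc0 := h.c0
  have hkK : ∀ a ∈ kL L, a ∈ K := fun a ha => kL_mem hL' (h.kL.2 ha)
  set X := Submodule.span (kL L) (Set.range p) with hX
  have hXf : FiniteDimensional (kL L) X :=
    FiniteDimensional.span_of_finite (kL L) (Set.finite_range p)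
  let cK : Submodule (kL L) ℂ :=
    { carrier := {x | c * x ∈ K}
      add_mem' := fun {a b} ha hb => by
        rw [Set.mem_ofPred_eq] at ha hb ⊢
        rw [mul_add]; exact add_mem ha hb
      zero_mem' := by
        rw [Set.mem_ofPred_eq, mul_zero]; exact zero_mem K
      smul_mem' := fun a x hx => by
        rw [Set.mem_ofPred_eq] at hx ⊢
        have e : c * (a • x) = (a : ℂ) * (c * x) := by
          change c * ((a : ℂ) * x) = _
          ring
        rw [e]
        exact mul_mem (hkK _ a.2) hx }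
  have hAf : FiniteDimensional (kL L) (X ⊓ cK : Submodule (kL L) ℂ) :=
    Submodule.finiteDimensional_of_le inf_le_left
  by_cases hbot : X ⊓ cK = ⊥
  · left
    intro a ha hs
    refine li_iff.1 hp a (fun i => h.kL.1 (ha i)) ?_
    have h1 : ∑ i, a i * p i ∈ X := by
      have : ∑ i, a i * p i = ∑ i, (⟨a i, h.kL.1 (ha i)⟩ : kL L) • p i := rfl
      rw [this]
      exact sum_mem (fun i _ => Submodule.smul_mem _ _ (Submodule.subset_span ⟨i, rfl⟩))
    have h2 : ∑ i, a i * p i ∈ cK := by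
      change c * ∑ i, a i * p i ∈ K
      rw [mul_sum]
      have : ∑ i, c * (a i * p i) = ∑ i, a i * (c * p i) := sum_congr rfl (fun i _ => by ring)
      rw [this]
      exact hs
    have h3 : ∑ i, a i * p i ∈ X ⊓ cK := ⟨h1, h2⟩
    rw [hbot] at h3
    exact (Submodule.mem_bot _).1 h3
  · right
    obtain ⟨q, -, hqX, hqL⟩ := exists_basis_off (X ⊓ cK)
    have hpos : 0 < finrank (kL L) (X ⊓ cK : Submodule (kL L) ℂ) := by
      rw [Nat.pos_iff_ne_zero]
      intro h0
      exact hbot (Submodule.finrank_eq_zero.1 h0)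
    exact ⟨q ⟨0, hpos⟩, (hqX _).1, (hqX _).2, hqL _⟩

theorem Hm_one (L : PeriodPair) : Hm L L 1 := ⟨one_ne_zero, fun x => by rw [one_mul]⟩

/-- a fixed lattice over the field -/
theorem small2 (hK : Fld K) (hL : L ∈ LK K) (hk : k ≤ 2 * n) {p : Fin n → ℂ} (hp : p ∈ SL L n k)
    {m : ℕ} (a : Fin m → Fin n) : (MK (IFd K)).eRk (EP L (p ∘ a)) + 1 < (k : ℕ∞) := by
  obtain ⟨hpL, hp, hr⟩ := hp
  rcases point (Hm_one L) hL hp with h | ⟨w, hwX, hwK, hwL⟩
  · exfalso
    simp only [one_mul] at h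
    have hn : 0 < 0 + n := by
      by_contra h0
      have h1 : k = 0 := by omega
      rw [h1, Nat.cast_zero] at hr
      exact not_lt_bot hr
    have h1 := hK.fix (s := 0) hL (z := p) (t := ![]) h (fun _ _ => Subsingleton.elim _ _) hn
    rw [ET_nil, Set.empty_union] at h1
    have h2 := (h1.trans (base_le (k := ℚ) (kQ K) (EP_finite _))).trans
      ((MK ℚ).eRk_mono (Set.subset_union_right (s := {L.g₂, L.g₃})))
    have h3 := h2.trans_lt hr
    have h4 : 0 + 2 * n + 1 < k := by exact_mod_cast h3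
    omega
  · rw [one_mul] at hwK
    exact (reduceK hK hL hwX hwK hwL).trans_lt hr

/-- **The dimension of the set of the points with small transcendence degree, for one lattice** -/
theorem dim2 (L : PeriodPair) (hk : k ≤ 2 * n) :
    dimH (SL L n k) ≤ ((2 * ((k - 2) / 3) : ℕ) : ENNReal) ∧ (k ≤ 4 → (SL L n k).Countable) := by
  classical
  obtain ⟨K, hK, hSK⟩ := exists_Fld (S := {L.ω₁, L.ω₂}) (Set.toFinite _).countable
  have hL : L ∈ LK K := ⟨hSK (Or.inl rfl), hSK (Or.inr rfl)⟩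
  have hC := toCl hK hL
  have hKc : Countable K := hK.cnt.to_subtype
  constructor
  · have hcov : SL L n k ⊆ ⋃ m : Fin (n + 1), ⋃ A : Fin n → Fin m → K, ⋃ κ : Fin n → K,
        (fun (x : Fin ((m : ℕ) + 0) → ℂ) (i : Fin n) =>
          ∑ j, (A i j : ℂ) * x (Fin.castAdd 0 j) + (κ i : ℂ)) ''
          Low (fun _ : Fin 1 => L) K (fun _ : Fin m => 0) 0 (k - 1 - 2 * m) := by
      intro p hp
      obtain ⟨m, a, ha, hI, A, κ, hA, hκ, hz⟩ := exists_sub1 hC p
      have h1 := Fintype.card_le_of_injective a ha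
      simp only [Fintype.card_fin] at h1
      have h3 := small2 hK hL hk hp a
      simp only [Set.mem_iUnion]
      refine ⟨⟨m, by omega⟩, fun i j => ⟨A i j, kL_mem hL (hA i j)⟩, fun i => ⟨κ i, hκ i⟩,
        Fin.append (p ∘ a) ![], ?_, ?_⟩
      · have e1 : (fun i => (Fin.append (p ∘ a) (![] : Fin 0 → ℂ)) (Fin.castAdd 0 i)) = p ∘ a := by
          funext i
          rw [Fin.append_left]
        have e2 : (fun l => (Fin.append (p ∘ a) (![] : Fin 0 → ℂ)) (Fin.natAdd m l)) = ![] :=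
          Subsingleton.elim _ _
        constructor
        · rw [e1, e2]
          exact hI
        · rw [e1, e2, ET_nil, Set.empty_union]
          change (MK (IFd K)).eRk (EP L (p ∘ a)) < _
          obtain ⟨r, hr⟩ := ENat.ne_top_iff_exists.1 (ne_top_of_lt (lt_of_le_of_lt le_self_add h3))
          rw [← hr] at h3 ⊢
          have h4 : r + 1 < k := by exact_mod_cast h3
          have h5 : r < 0 + 2 * m + (k - 1 - 2 * m) := by omega
          exact_mod_cast h5
      · funext i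
        change ∑ j, A i j * Fin.append (p ∘ a) (![] : Fin 0 → ℂ) (Fin.castAdd 0 j) + κ i = p i
        conv_rhs => rw [hz i]
        congr 1
        refine sum_congr rfl (fun j _ => ?_)
        rw [Fin.append_left]
        rfl
    refine (dimH_mono hcov).trans ?_
    simp only [dimH_iUnion, iSup_le_iff]
    intro m A κ
    have hcd : ContDiff ℝ 1 (fun (x : Fin ((m : ℕ) + 0) → ℂ) (i : Fin n) =>
          ∑ j, (A i j : ℂ) * x (Fin.castAdd 0 j) + (κ i : ℂ)) := by
      fun_prop
    refine (hcd.contDiffOn.dimH_image_le convex_univ (Set.subset_univ _)).trans ?_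
    by_cases h1 : (m : ℕ) ≤ (k - 2) / 3
    · refine (dimH_tuple _).trans ?_
      have : 2 * ((m : ℕ) + 0) ≤ 2 * ((k - 2) / 3) := by omega
      exact_mod_cast this
    · rcases Nat.eq_zero_or_pos (k - 1 - 2 * (m : ℕ)) with h2 | h2
      · rw [h2, Low_zero hC (noHom1 _), dimH_empty]
        exact zero_le
      · obtain ⟨d, hd⟩ : ∃ d, k - 1 - 2 * (m : ℕ) = d + 1 := ⟨k - 1 - 2 * (m : ℕ) - 1, by omega⟩
        rw [hd]
        refine (dim_Low hC (noHom1 _) _ 0 d).trans ?_
        have : 2 * d ≤ 2 * ((k - 2) / 3) := by omega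
        exact_mod_cast this
  · intro hk4
    have h1 : SL L n k ⊆ Set.range (fun (x : Fin n → K) (i : Fin n) => (x i : ℂ)) := by
      intro p hp
      obtain ⟨m, a, ha, hI, A, κ, hA, hκ, hz⟩ := exists_sub1 hC p
      have h3 := small2 hK hL hk hp a
      have h0 : m = 0 := by
        by_contra hne
        have h2 := rank_one hC (noHom1 _) hI (by omega)
        rw [ET_nil, Set.empty_union] at h2
        have h4 := (add_le_add h2 (le_refl (1 : ℕ∞))).trans_lt h3
        have h5 : 0 + 2 * m + 1 + 1 < k := by exact_mod_cast h4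
        omega
      subst h0
      refine ⟨fun i => ⟨κ i, hκ i⟩, ?_⟩
      funext i
      change κ i = p i
      rw [hz i]
      simp
    exact (Set.countable_range _).mono h1

/-- all lattices -/
theorem small1 (hK : Fld K) (hk : k ≤ 2 * n) {p : Fin n → ℂ} (hp : p ∈ SL L n k) :
    ∃ (L₁ : PeriodPair) (w : ℂ), L₁ ∈ LK K ∧ w ≠ 0 ∧ L.ω₁ = w * L₁.ω₁ ∧ L.ω₂ = w * L₁.ω₂ ∧
      ∀ (m : ℕ) (a : Fin m → Fin n),
        (MK (IFd K)).eRk (insert w (EP L₁ ((fun i => w⁻¹ * p i) ∘ a))) + 1 < (k : ℕ∞) := by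
  classical
  obtain ⟨hpL, hp, hr⟩ := hp
  have hk' := kQ K
  have hfin : ({L.g₂, L.g₃} ∪ EP L p).Finite := (Set.toFinite _).union (EP_finite p)
  by_cases hj : jv L ∈ K
  swap
  · exfalso
    have hpQ : LinearIndependent ℚ p := hp.restrict_scalars (fun a b hab => by
      have h1 : ((algebraMap ℚ (kL L) a : kL L) : ℂ) = ((algebraMap ℚ (kL L) b : kL L) : ℂ) := by
        have h2 : algebraMap ℚ (kL L) a = algebraMap ℚ (kL L) b := by
          simpa [Algebra.smul_def] using hab
        rw [h2]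
      simpa using h1)
    have h1 := ((hK.gen' L hj hpQ).trans (base_le hk' hfin)).trans_lt hr
    have h2 : 2 * n < k := by exact_mod_cast h1
    omega
  obtain ⟨L', c, h, hL', hcδ⟩ := exists_norm hK hj
  have hc0 := h.c0
  rcases point h hL' hp with hind | ⟨w, hwX, hwK, hwL⟩
  · exfalso
    have hn : 0 < 0 + n := by
      by_contra h0
      have h1 : k = 0 := by omega
      rw [h1, Nat.cast_zero] at hr
      exact not_lt_bot hr
    have h1 := hK.fix (s := 0) hL' (z := fun i => c * p i) (t := ![]) hind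
      (fun _ _ => Subsingleton.elim _ _) hn
    rw [ET_nil, Set.empty_union] at h1
    have h3 := h1.trans (base_le (k := ℚ) hk' (EP_finite _))
    have h4 : (MK ℚ).eRk (EP L' (fun i => c * p i)) ≤ (MK ℚ).eRk ({L.g₂, L.g₃} ∪ EP L p) := by
      rw [← MK_FR ℚ]
      apply rk_le_of_subset_cl
      intro x hx
      exact sub_cl h hcδ (fun i => Submodule.subset_span ⟨i, rfl⟩) hpL (Or.inr hx)
    have h5 := (h3.trans h4).trans_lt hr
    have h6 : 0 + 2 * n + 1 < k := by exact_mod_cast h5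
    omega
  · have hw0 : w ≠ 0 := fun h0 => hwL (h0 ▸ zero_mem _)
    have hwi : w⁻¹ ≠ 0 := inv_ne_zero hw0
    obtain ⟨L₁, hL₁⟩ : ∃ L₁ : PeriodPair, L₁ = scl L w⁻¹ hwi := ⟨_, rfl⟩
    have h₁ : Hm L L₁ w⁻¹ := hL₁ ▸ Hm_scl L hwi
    have hmemK : ∀ x, c * x ∈ K → w⁻¹ * x ∈ K := by
      intro x hx
      have e1 : w⁻¹ * x = (c * x) / (c * w) := by field_simp
      rw [e1]
      exact div_mem hx hwK
    have hLK : L₁ ∈ LK K := by
      rw [hL₁]
      exact ⟨hmemK _ (lat_mem hL' ((h.mem _).2 L.ω₁_mem_lattice)),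
        hmemK _ (lat_mem hL' ((h.mem _).2 L.ω₂_mem_lattice))⟩
    refine ⟨L₁, w, hLK, hw0, ?_, ?_, fun m a => ?_⟩
    · rw [hL₁]
      change L.ω₁ = w * (w⁻¹ * L.ω₁)
      rw [mul_inv_cancel_left₀ hw0]
    · rw [hL₁]
      change L.ω₂ = w * (w⁻¹ * L.ω₂)
      rw [mul_inv_cancel_left₀ hw0]
    obtain ⟨A, hA⟩ : ∃ A : Set ℂ, A = {L₁.g₂, L₁.g₃} ∪ EP L₁ (fun _ : Fin 1 => w⁻¹ * w) :=
      ⟨_, rfl⟩
    have hAfin : A.Finite := by rw [hA]; exact (Set.toFinite _).union (EP_finite _)
    have hAK : A ⊆ K := by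
      rw [hA]
      rintro x ((rfl | rfl) | hx)
      · exact hK.g₂ _ hLK
      · exact hK.g₃ _ hLK
      · exact H39E.EP_mem hK hLK (fun _ => by rw [inv_mul_cancel₀ hw0]; exact one_mem K) hx
    have h3 : ((1 : ℕ) : ℕ∞) ≤ (MK ℚ).eRk A := by
      refine rank_A (L := L₁) (z := w⁻¹ * w) (h₁.notMem.2 hwL) hAfin ?_ ?_ ?_ ?_
      · rw [hA]; exact Or.inl (Or.inl rfl)
      · rw [hA]; exact Or.inl (Or.inr rfl)
      · rw [hA]; exact Or.inr (Or.inl ⟨0, rfl⟩)
      · rw [hA]; exact Or.inr (Or.inr (Or.inr ⟨0, rfl⟩))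
    have hBfin : (insert w (EP L₁ ((fun i => w⁻¹ * p i) ∘ a))).Finite := (EP_finite _).insert w
    have h4 := union_ge (k := ℚ) hK hk' hAfin hBfin hAK
    have hw1 : ∀ δ : Derivation ℚ ℂ ℂ, (∀ x ∈ {L.g₂, L.g₃} ∪ EP L p, δ x = 0) → δ w = 0 := by
      intro δ hδ
      exact (kill_spanK (hδ _ (Or.inl (Or.inl rfl))) (hδ _ (Or.inl (Or.inr rfl)))
        (fun x hx => hδ x (Or.inr hx)) hwX hwL).1
    have hw2 : ∀ δ : Derivation ℚ ℂ ℂ, (∀ x ∈ {L.g₂, L.g₃} ∪ EP L p, δ x = 0) →
        δ w⁻¹ = 0 := by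
      intro δ hδ
      rw [Derivation.leibniz_inv, hw1 δ hδ, smul_zero]
    have h5 : (MK ℚ).eRk (A ∪ insert w (EP L₁ ((fun i => w⁻¹ * p i) ∘ a))) ≤
        (MK ℚ).eRk ({L.g₂, L.g₃} ∪ EP L p) := by
      rw [← MK_FR ℚ]
      apply rk_le_of_subset_cl
      rintro x (hx | hx | hx)
      · rw [hA] at hx
        exact H39E.sub_cl' h₁ hw2 (v := fun _ : Fin 1 => w) (fun _ => hwX) (fun _ => hwL) hx
      · rw [hx, mem_cl_iff]
        exact fun δ _ hS => hw1 δ hS
      · exact H39E.sub_cl' h₁ hw2 (v := fun i => p (a i))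
          (fun i => Submodule.subset_span ⟨a i, rfl⟩) (fun i => hpL _) (Or.inr hx)
    refine lt_of_le_of_lt ?_ ((h4.trans h5).trans_lt hr)
    rw [add_comm]
    exact add_le_add (by exact_mod_cast h3) le_rfl

/-- the lattices and points with small rank -/
def SA (n k : ℕ) : Set ((ℂ × ℂ) × (Fin n → ℂ)) :=
  {x | ∃ L : PeriodPair, L.ω₁ = x.1.1 ∧ L.ω₂ = x.1.2 ∧ x.2 ∈ SL L n k}

/-- **The dimension of the set of the lattices and points with small transcendence degree** -/
theorem dim1 (hk : k ≤ 2 * n) :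
    dimH (SA n k) ≤ ((2 * (k / 3) : ℕ) : ENNReal) ∧ (k ≤ 2 → (SA n k).Countable) := by
  classical
  obtain ⟨K, hK, -⟩ := exists_Fld (S := ∅) Set.countable_empty
  have hKc : Countable K := hK.cnt.to_subtype
  have hLKc : Countable (LK K) := (countable_LK hK.cnt).to_subtype
  constructor
  · have hcov : SA n k ⊆ ⋃ L₁ : LK K, ⋃ m : Fin (n + 1), ⋃ A : Fin n → Fin m → K,
        ⋃ κ : Fin n → K, (fun (x : Fin ((m : ℕ) + 0 + 1) → ℂ) =>
          (((x 0 * (L₁ : PeriodPair).ω₁, x 0 * (L₁ : PeriodPair).ω₂),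
            fun (i : Fin n) => x 0 * (∑ j, (A i j : ℂ) * x (Fin.castAdd 0 j).succ + (κ i : ℂ))) :
              (ℂ × ℂ) × (Fin n → ℂ))) ''
          LowX (fun _ : Fin 1 => (L₁ : PeriodPair)) K (fun _ : Fin m => 0) 0 (k - 1 - 2 * m) := by
      rintro ⟨⟨o₁, o₂⟩, p⟩ ⟨L, h1, h2, hp⟩
      simp only at h1 h2 hp
      obtain ⟨L₁, w, hL₁, hw0, e1, e2, hall⟩ := small1 hK hk hp
      obtain ⟨m, a, ha, hI, A, κ, hA, hκ, hz⟩ := exists_sub1 (toCl hK hL₁) (fun i => w⁻¹ * p i)
      have hm := Fintype.card_le_of_injective a ha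
      simp only [Fintype.card_fin] at hm
      have h3 := hall m a
      simp only [Set.mem_iUnion]
      refine ⟨⟨L₁, hL₁⟩, ⟨m, by omega⟩, fun i j => ⟨A i j, kL_mem hL₁ (hA i j)⟩,
        fun i => ⟨κ i, hκ i⟩, Fin.cons w (Fin.append ((fun i => w⁻¹ * p i) ∘ a) ![]), ?_, ?_⟩
      · have f1 : (fun i => (Fin.cons w (Fin.append ((fun i => w⁻¹ * p i) ∘ a) (![] : Fin 0 → ℂ)) :
            Fin (m + 0 + 1) → ℂ) (Fin.castAdd 0 i).succ) = (fun i => w⁻¹ * p i) ∘ a := by
          funext i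
          rw [Fin.cons_succ, Fin.append_left]
        have f2 : (fun l : Fin 0 => (Fin.cons w (Fin.append ((fun i => w⁻¹ * p i) ∘ a)
            (![] : Fin 0 → ℂ)) : Fin (m + 0 + 1) → ℂ) (Fin.natAdd m l).succ) = ![] :=
          Subsingleton.elim _ _
        constructor
        · rw [f1, f2]
          exact hI
        · rw [f1, f2, ET_nil, Set.empty_union, Fin.cons_zero]
          change (MK (IFd K)).eRk (insert w (EP L₁ ((fun i => w⁻¹ * p i) ∘ a))) < _
          obtain ⟨r, hr⟩ := ENat.ne_top_iff_exists.1 (ne_top_of_lt (lt_of_le_of_lt le_self_add h3))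
          rw [← hr] at h3 ⊢
          have h4 : r + 1 < k := by exact_mod_cast h3
          have h5 : r < 0 + 2 * m + (k - 1 - 2 * m) := by omega
          exact_mod_cast h5
      · refine Prod.ext (Prod.ext ?_ ?_) ?_
        · change w * L₁.ω₁ = o₁
          rw [← e1, h1]
        · change w * L₁.ω₂ = o₂
          rw [← e2, h2]
        · funext i
          change w * (∑ j, A i j * Fin.append ((fun i => w⁻¹ * p i) ∘ a) (![] : Fin 0 → ℂ)
            (Fin.castAdd 0 j) + κ i) = p i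
          have h4 : ∑ j, A i j * Fin.append ((fun i => w⁻¹ * p i) ∘ a) (![] : Fin 0 → ℂ)
            (Fin.castAdd 0 j) + κ i = w⁻¹ * p i := by
            rw [hz i]
            congr 1
            refine sum_congr rfl (fun j _ => ?_)
            rw [Fin.append_left]
            rfl
          rw [h4, mul_inv_cancel_left₀ hw0]
    refine (dimH_mono hcov).trans ?_
    simp only [dimH_iUnion, iSup_le_iff]
    intro L₁ m A κ
    have hC := toCl hK L₁.2
    have hcd : ContDiff ℝ 1 (fun (x : Fin ((m : ℕ) + 0 + 1) → ℂ) =>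
          (((x 0 * (L₁ : PeriodPair).ω₁, x 0 * (L₁ : PeriodPair).ω₂),
            fun (i : Fin n) => x 0 * (∑ j, (A i j : ℂ) * x (Fin.castAdd 0 j).succ + (κ i : ℂ))) :
              (ℂ × ℂ) × (Fin n → ℂ))) := by
      fun_prop
    refine (hcd.contDiffOn.dimH_image_le convex_univ (Set.subset_univ _)).trans ?_
    by_cases h1 : (m : ℕ) + 1 ≤ k / 3
    · refine (dimH_tuple _).trans ?_
      have : 2 * ((m : ℕ) + 0 + 1) ≤ 2 * (k / 3) := by omega
      exact_mod_cast this
    · rcases Nat.eq_zero_or_pos (k - 1 - 2 * (m : ℕ)) with h2 | h2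
      · rw [h2, LowX_zero hC (noHom1 _), dimH_empty]
        exact zero_le
      · obtain ⟨d, hd⟩ : ∃ d, k - 1 - 2 * (m : ℕ) = d + 1 := ⟨k - 1 - 2 * (m : ℕ) - 1, by omega⟩
        rw [hd]
        refine (dim_LowX hC (noHom1 _) _ 0 d).trans ?_
        have : 2 * d ≤ 2 * (k / 3) := by omega
        exact_mod_cast this
  · intro hk2
    have h1 : SA n k ⊆ Set.range (fun (x : (K × K) × (Fin n → K)) =>
        ((((x.1.1 : ℂ), (x.1.2 : ℂ)), fun i : Fin n => (x.2 i : ℂ)) : (ℂ × ℂ) × (Fin n → ℂ))) := by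
      rintro ⟨⟨o₁, o₂⟩, p⟩ ⟨L, h1, h2, hp⟩
      simp only at h1 h2 hp
      obtain ⟨L₁, w, hL₁, hw0, e1, e2, hall⟩ := small1 hK hk hp
      have hwK : w ∈ K := by
        by_contra hcon
        have h3 := hall 0 (fun i => i.elim0)
        have htr : Transcendental (IFd K) w := fun h => hcon (hK.alg w h)
        have h4 : ((1 : ℕ) : ℕ∞) ≤ (MK (IFd K)).eRk
            (insert w (EP L₁ ((fun i => w⁻¹ * p i) ∘ (fun i : Fin 0 => i.elim0)))) := by
          have h5 : (MK (IFd K)).Indep {w} := by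
            rw [AlgebraicIndependent.matroid_indep_iff]
            exact algebraicIndependent_unique_type_iff.2 htr
          have h6 := h5.eRk_eq_encard
          rw [Set.encard_singleton] at h6
          have h7 := (MK (IFd K)).eRk_mono (Set.singleton_subset_iff.2 (Set.mem_insert w
            (EP L₁ ((fun i => w⁻¹ * p i) ∘ (fun i : Fin 0 => i.elim0)))))
          rw [h6] at h7
          exact_mod_cast h7
        have h5 := (add_le_add h4 (le_refl (1 : ℕ∞))).trans_lt h3
        have h6 : 1 + 1 < k := by exact_mod_cast h5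
        omega
      obtain ⟨m, a, ha, hI, A, κ, hA, hκ, hz⟩ := exists_sub1 (toCl hK hL₁) (fun i => w⁻¹ * p i)
      have h0 : m = 0 := by
        by_contra hne
        have h2 := rank_one (toCl hK hL₁) (noHom1 _) hI (by omega)
        rw [ET_nil, Set.empty_union] at h2
        have h3 : ((0 + 2 * m + 1 : ℕ) : ℕ∞) ≤ (MK (IFd K)).eRk
            (insert w (EP L₁ ((fun i => w⁻¹ * p i) ∘ a))) :=
          h2.trans ((MK (IFd K)).eRk_mono (Set.subset_insert _ _))
        have h4 := (add_le_add h3 (le_refl (1 : ℕ∞))).trans_lt (hall m a)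
        have h5 : 0 + 2 * m + 1 + 1 < k := by exact_mod_cast h4
        omega
      subst h0
      refine ⟨((⟨w * L₁.ω₁, mul_mem hwK hL₁.1⟩, ⟨w * L₁.ω₂, mul_mem hwK hL₁.2⟩),
        fun i => ⟨w * κ i, mul_mem hwK (hκ i)⟩), ?_⟩
      refine Prod.ext (Prod.ext ?_ ?_) ?_
      · change w * L₁.ω₁ = o₁
        rw [← e1, h1]
      · change w * L₁.ω₂ = o₂
        rw [← e2, h2]
      · funext i
        change w * κ i = p i
        have h4 : w⁻¹ * p i = κ i := by
          rw [hz i]
          simp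
        rw [← h4, mul_inv_cancel_left₀ hw0]
    exact (Set.countable_range _).mono h1

end Pool.Agent.H39D
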